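import Mathlib

/-!
# Project ND: statements (local conjugates of a point in dimension n)
-/

set_option autoImplicit false

open Finset Polynomial Module

universe u

namespace Pool.Agent.Y642.ND

/-- all embeddings of a number field and the minimal polynomial of an element -/
def S_EMB : Prop := ∀ (F : Type) [Field F] [NumberField F] (Ω : Type u) [Field Ω] [CharZero Ω]
  [IsAlgClosed Ω] (x : F) (f : ℤ[X]), Irreducible f → aeval x f = 0 → ∀ m : ℕ,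
  m * f.natDegree = finrank ℚ F →
  (f.map (Int.castRingHom Ω)) ^ m =
    C ((f.leadingCoeff : Ω) ^ m) * ∏ σ : F →+* Ω, (X - C (σ x))

/-- the degree of an element divides the degree of the field -/
def S_DEG : Prop := ∀ (F : Type) [Field F] [NumberField F] (x : F) (f : ℤ[X]),
  Irreducible f → aeval x f = 0 → ∃ m : ℕ, m * f.natDegree = finrank ℚ F

/-- a basis of the field made of monomials, and its discriminant -/
def S_BAS : Prop := ∀ (F : Type) [Field F] [NumberField F] (n : ℕ) (x : Fin n → F)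
  (M : Fin n → ℕ),
  Submodule.span ℚ {z : F | ∃ k : Fin n → ℕ, (∀ j, k j ≤ M j) ∧ z = ∏ j, x j ^ k j} = ⊤ →
  ∃ (l : Fin (finrank ℚ F) → Fin n → ℕ) (d : ℚ), (∀ k j, l k j ≤ M j) ∧ d ≠ 0 ∧
    ∀ (Ω : Type u) [Field Ω] [CharZero Ω] [IsAlgClosed Ω]
      (e : Fin (finrank ℚ F) ≃ (F →+* Ω)),
      (d : Ω) = (Matrix.of fun i k : Fin (finrank ℚ F) => ∏ j, e i (x j) ^ l k j).det ^ 2

/-- Newton polynomials adapted to a local ring with finite residue ring -/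
def S_NEW : Prop := ∀ (A : Type u) [CommRing A] (π : A) [Finite (A ⧸ Ideal.span {π})],
  ∃ (v : ℕ → A) (c : ℕ → ℕ → A),
    (∀ (k : ℕ) (t : A), π ^ (k / Nat.card (A ⧸ Ideal.span {π})) ∣
      ∏ r ∈ Finset.range k, (t - v r)) ∧
    (∀ (m : ℕ) (t : A), t ^ m =
      ∑ k ∈ Finset.range (m + 1), c m k * ∏ r ∈ Finset.range k, (t - v r)) ∧
    ∀ m k : ℕ, m < k → c m k = 0

/-- leading coefficient and products of powers of some of the roots -/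
def S_INT : Prop := ∀ (Ω : Type u) [Field Ω] (J : Type) [Fintype J] [DecidableEq J] (a : Ω)
  (y : J → Ω), (∀ i, IsIntegral ℤ ((C a * ∏ σ, (X - C (y σ))).coeff i)) →
  ∀ (S : Finset J) (M : ℕ) (l : J → ℕ), (∀ σ ∈ S, l σ ≤ M) →
    IsIntegral ℤ (a ^ M * ∏ σ ∈ S, y σ ^ l σ)

/-- the local divisibility of the determinant -/
def S_DET : Prop := ∀ (A : Type u) [CommRing A] (Ω : Type u) [Field Ω] [Algebra A Ω]
  (J : Type) [Fintype J] [DecidableEq J] (n : ℕ) (y : J → Fin n → Ω) (l : J → Fin n → ℕ)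
  (M : Fin n → ℕ) (a : Fin n → Ω), (∀ k j, l k j ≤ M j) →
  (∀ (j : Fin n) (S : Finset J) (l' : J → ℕ), (∀ σ ∈ S, l' σ ≤ M j) →
    IsIntegral ℤ (a j ^ M j * ∏ σ ∈ S, y σ j ^ l' σ)) →
  ∀ (π : A) (q : ℕ) (v : ℕ → A) (c : ℕ → ℕ → A),
  (∀ (k : ℕ) (t : A), π ^ (k / q) ∣ ∏ r ∈ Finset.range k, (t - v r)) →
  (∀ (m : ℕ) (t : A), t ^ m =
    ∑ k ∈ Finset.range (m + 1), c m k * ∏ r ∈ Finset.range k, (t - v r)) →
  (∀ m k : ℕ, m < k → c m k = 0) →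
  ∀ (T : Finset J) (t : J → Fin n → A), (∀ σ ∈ T, ∀ j, algebraMap A Ω (t σ j) = y σ j) →
  ∀ E : ℕ, (∀ g : J → Fin n → ℕ, Set.InjOn g T → E ≤ ∑ σ ∈ T, ∑ j, g σ j / q) →
  ∃ z : Ω, IsIntegral A z ∧
    (∏ j, a j ^ M j) * (Matrix.of fun i k : J => ∏ j, y i j ^ l k j).det =
      algebraMap A Ω (π ^ E) * z

/-- the count -/
def S_CNT : Prop := ∀ n q : ℕ, 1 ≤ n → 1 ≤ q → ∀ S : Finset (Fin n → ℕ),
  (n : ℝ) / (n + 1) * (S.card : ℝ) ^ (1 + 1 / (n : ℝ)) - (n * ((q : ℝ) - 1) + 2) * S.card ≤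
    q * ∑ μ ∈ S, ∑ j, ((μ j / q : ℕ) : ℝ)

/-- the bound of Hadamard -/
def S_ARC : Prop := ∀ (D n : ℕ) (y : Fin D → Fin n → ℂ) (l : Fin D → Fin n → ℕ)
  (M : Fin n → ℕ), (∀ k j, l k j ≤ M j) →
  ‖(Matrix.of fun i k : Fin D => ∏ j, y i j ^ l k j).det‖ ^ 2 ≤
    (D : ℝ) ^ D * ∏ i, ∏ j, (max 1 ‖y i j‖) ^ (2 * M j)

end Pool.Agent.Y642.ND
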