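import Mathlib
import Pool.Agent.Y642.ND.Stm
import Pool.Agent.Y642.LZ.G

/-!
# The archimedean part and the integer attached to the discriminant
-/

set_option autoImplicit false

open Finset Polynomial Module

universe u

namespace Pool.Agent.Y642.ND

/-- The absolute logarithmic Weil height of a zero of the irreducible polynomial `f` with integer
coefficients, that is, the logarithm of its Mahler measure divided by its degree. -/
noncomputable def wh (f : ℤ[X]) : ℝ :=
  Real.log ((f.map (Int.castRingHom ℂ)).mahlerMeasure) / f.natDegree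

lemma mah_pow (p : ℂ[X]) (m : ℕ) : (p ^ m).mahlerMeasure = p.mahlerMeasure ^ m := by
  induction m with
  | zero => simp
  | succ m ih => rw [pow_succ, mahlerMeasure_mul, ih, pow_succ]

lemma mah_prod {ι : Type*} (s : Finset ι) (z : ι → ℂ) :
    (∏ i ∈ s, (X - C (z i))).mahlerMeasure = ∏ i ∈ s, max 1 ‖z i‖ := by
  classical
  induction s using Finset.induction_on with
  | empty => simp
  | insert a s ha ih =>
    rw [Finset.prod_insert ha, Finset.prod_insert ha, mahlerMeasure_mul, ih,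
      mahlerMeasure_X_sub_C]

lemma natDegree_pos_of {F : Type*} [Field F] [CharZero F] {x : F} {f : ℤ[X]}
    (hf : Irreducible f) (hx : aeval x f = 0) : 0 < f.natDegree := by
  rw [Nat.pos_iff_ne_zero]
  intro h0
  have h1 : f = C (f.coeff 0) := eq_C_of_natDegree_eq_zero h0
  rw [h1, aeval_C] at hx
  have h2 : f.coeff 0 = 0 := by
    have h3 : ((f.coeff 0 : ℤ) : F) = 0 := by simpa using hx
    exact_mod_cast h3
  rw [h2, C_0] at h1
  exact hf.ne_zero h1

lemma mah (hE : S_EMB.{0}) {F : Type} [Field F] [NumberField F] {x : F} {f : ℤ[X]}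
    (hf : Irreducible f) (hx : aeval x f = 0) {m : ℕ} (hm : m * f.natDegree = finrank ℚ F) :
    (m : ℝ) * Real.log |(f.leadingCoeff : ℝ)| + ∑ σ : F →+* ℂ, Real.log (max 1 ‖σ x‖) =
      finrank ℚ F * wh f := by
  have h1 := congrArg Polynomial.mahlerMeasure (hE F ℂ x f hf hx m hm)
  rw [mah_pow, mahlerMeasure_mul, mahlerMeasure_const, mah_prod] at h1
  have h2 := congrArg Real.log h1
  have hlc : (f.leadingCoeff : ℝ) ≠ 0 := by exact_mod_cast leadingCoeff_ne_zero.mpr hf.ne_zero
  have hlcC : (f.leadingCoeff : ℂ) ≠ 0 := by exact_mod_cast leadingCoeff_ne_zero.mpr hf.ne_zero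
  rw [Real.log_pow, Real.log_mul (by simpa using pow_ne_zero m hlcC)
    (Finset.prod_pos fun σ _ => lt_of_lt_of_le one_pos (le_max_left _ _)).ne',
    Real.log_prod (fun σ _ => (lt_of_lt_of_le one_pos (le_max_left _ _)).ne'), norm_pow,
    Real.log_pow, Complex.norm_intCast] at h2
  rw [← h2, wh]
  have hd : (0 : ℝ) < f.natDegree := by exact_mod_cast natDegree_pos_of hf hx
  have hm' : (finrank ℚ F : ℝ) = m * f.natDegree := by exact_mod_cast hm.symm
  rw [hm']
  field_simp

lemma algClosed_ulift : IsAlgClosed (ULift.{u} ℂ) := by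
  refine IsAlgClosed.of_exists_root _ fun p hp hirr => ?_
  set φ : ULift.{u} ℂ ≃+* ℂ := ULift.ringEquiv with hφ
  have hd : (p.map (φ : ULift.{u} ℂ →+* ℂ)).degree ≠ 0 := by
    rw [degree_map]
    exact (degree_pos_of_irreducible hirr).ne'
  obtain ⟨z, hz⟩ := IsAlgClosed.exists_root _ hd
  refine ⟨φ.symm z, ?_⟩
  apply φ.injective
  rw [map_zero]
  have h1 : φ (eval (φ.symm z) p) = eval z (p.map (φ : ULift.{u} ℂ →+* ℂ)) := by
    have h2 := Polynomial.hom_eval₂ p (RingHom.id _) (φ : ULift.{u} ℂ →+* ℂ) (φ.symm z)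
    rw [RingHom.comp_id] at h2
    rw [eval_map, eval]
    refine Eq.trans h2 ?_
    congr 1
  rw [h1]
  exact hz

/-- the integrality hypothesis of the determinant lemma -/
lemma int_hyp {Ω : Type u} [Field Ω] [CharZero Ω] [IsAlgClosed Ω] (hE : S_EMB.{u})
    (hI : S_INT.{u}) {F : Type} [Field F] [NumberField F] {x : F} {f : ℤ[X]}
    (hf : Irreducible f) (hx : aeval x f = 0) {m : ℕ} (hm : m * f.natDegree = finrank ℚ F)
    {D : ℕ} (e : Fin D ≃ (F →+* Ω)) (S : Finset (Fin D)) (M : ℕ) (l : Fin D → ℕ)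
    (hl : ∀ σ ∈ S, l σ ≤ M) :
    IsIntegral ℤ (((f.leadingCoeff : Ω) ^ m) ^ M * ∏ σ ∈ S, e σ x ^ l σ) := by
  refine hI Ω (Fin D) _ (fun σ => e σ x) (fun i => ?_) S M l hl
  have h1 : ∏ σ : Fin D, (X - C (e σ x)) = ∏ σ : F →+* Ω, (X - C (σ x)) :=
    Equiv.prod_comp e (fun σ : F →+* Ω => X - C (σ x))
  rw [h1, ← hE F Ω x f hf hx m hm, ← Polynomial.map_pow, coeff_map]
  exact isIntegral_algebraMap

end Pool.Agent.Y642.ND
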