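import Mathlib
import Pool.Agent.Y642.ND.Arc

/-!
# The contribution of one local field
-/

set_option autoImplicit false

open Finset Polynomial Module ValuativeRel Pool.Agent.Y642.LZ

universe u

namespace Pool.Agent.Y642.ND

/-- the lower bound for the number of collisions of `R` points in dimension `n` -/
noncomputable def gain (n q : ℕ) (R : ℝ) : ℝ :=
  (n : ℝ) / (n + 1) * R ^ (1 + 1 / (n : ℝ)) - (n * ((q : ℝ) - 1) + 2) * R

lemma exists_E (hCNT : S_CNT) {n q : ℕ} (hn : 1 ≤ n) (hq : 1 ≤ q) {J : Type} [Fintype J]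
    [DecidableEq J] (T : Finset J) :
    ∃ E : ℕ, gain n q T.card ≤ q * E ∧
      ∀ g : J → Fin n → ℕ, Set.InjOn g T → E ≤ ∑ σ ∈ T, ∑ j, g σ j / q := by
  have hq0 : (0 : ℝ) < q := by exact_mod_cast hq
  refine ⟨⌈gain n q T.card / q⌉₊, ?_, fun g hg => ?_⟩
  · have h1 := Nat.le_ceil (gain n q T.card / q)
    rw [div_le_iff₀ hq0] at h1
    linarith
  · rw [Nat.ceil_le, div_le_iff₀ hq0]
    have h1 := hCNT n q hn hq (T.image g)
    rw [Finset.card_image_of_injOn hg, Finset.sum_image hg] at h1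
    unfold gain
    push_cast at h1 ⊢
    linarith

lemma locl (P : Place.{u}) (hEMB : S_EMB.{u}) (hNEW : S_NEW.{u}) (hINT : S_INT.{u})
    (hDET : S_DET.{u}) (hCNT : S_CNT) {F : Type} [Field F] [NumberField F] {n : ℕ} (hn : 1 ≤ n)
    {x : Fin n → F} {f : Fin n → ℤ[X]} (hf : ∀ j, Irreducible (f j))
    (hx : ∀ j, aeval (x j) (f j) = 0) {m M : Fin n → ℕ}
    (hm : ∀ j, m j * (f j).natDegree = finrank ℚ F)
    {l : Fin (finrank ℚ F) → Fin n → ℕ} (hl : ∀ k j, l k j ≤ M j) {d : ℚ}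
    (hd : ∀ (Ω : Type u) [Field Ω] [CharZero Ω] [IsAlgClosed Ω]
      (e : Fin (finrank ℚ F) ≃ (F →+* Ω)),
      (d : Ω) = (Matrix.of fun i k : Fin (finrank ℚ F) => ∏ j, e i (x j) ^ l k j).det ^ 2)
    {r : ℤ} (hr : (r : ℚ) = (∏ j, (((f j).leadingCoeff : ℚ) ^ m j) ^ M j) ^ 2 * d)
    (T : Finset (F →+* P.K)) (hT : ∀ τ ∈ T, ∀ j, τ (x j) ∈ 𝒪[P.K]) :
    ∃ E : ℕ, gain n P.q T.card ≤ P.q * E ∧ unif P.K ^ (2 * E) ∣ (r : 𝒪[P.K]) := by
  classical
  obtain ⟨π, hπ⟩ : ∃ π : 𝒪[P.K], π = unif P.K := ⟨_, rfl⟩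
  rw [← hπ]
  have hchar : CharZero (AlgebraicClosure P.K) :=
    charZero_of_injective_algebraMap (algebraMap P.K (AlgebraicClosure P.K)).injective
  set Ω := AlgebraicClosure P.K with hΩ
  have hcard : Fintype.card (Fin (finrank ℚ F)) = Fintype.card (F →+* Ω) := by
    rw [Fintype.card_fin, NumberField.Embeddings.card]
  let e : Fin (finrank ℚ F) ≃ (F →+* Ω) := Fintype.equivOfCardEq hcard
  -- the rows coming from the local field
  let c : (F →+* P.K) → Fin (finrank ℚ F) := fun τ => e.symm ((algebraMap P.K Ω).comp τ)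
  have hc : Function.Injective c := by
    intro τ τ' h
    have h1 := e.symm.injective h
    ext y
    have h2 := RingHom.congr_fun h1 y
    exact (algebraMap P.K Ω).injective h2
  set T' : Finset (Fin (finrank ℚ F)) := T.image c with hT'
  have hT'card : T'.card = T.card := Finset.card_image_of_injective _ hc
  have hex : ∀ i ∈ T', ∀ j, ∃ z : 𝒪[P.K], algebraMap 𝒪[P.K] Ω z = e i (x j) := by
    intro i hi j
    obtain ⟨τ, hτ, rfl⟩ := Finset.mem_image.mp hi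
    refine ⟨⟨τ (x j), hT τ hτ j⟩, ?_⟩
    change algebraMap P.K Ω (τ (x j)) = e (e.symm ((algebraMap P.K Ω).comp τ)) (x j)
    rw [Equiv.apply_symm_apply]
    rfl
  let t : Fin (finrank ℚ F) → Fin n → 𝒪[P.K] := fun i j =>
    if h : ∃ z : 𝒪[P.K], algebraMap 𝒪[P.K] Ω z = e i (x j) then h.choose else 0
  have ht : ∀ i ∈ T', ∀ j, algebraMap 𝒪[P.K] Ω (t i j) = e i (x j) := by
    intro i hi j
    have h := hex i hi j
    simp only [t, dif_pos h]
    exact h.choose_spec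
  have hq : 1 ≤ P.q := by
    have := P.toLoc.two_le_q
    rw [Place.toLoc_q] at this
    omega
  obtain ⟨E, hE1, hE2⟩ := exists_E hCNT hn hq T'
  rw [hT'card] at hE1
  refine ⟨E, hE1, ?_⟩
  have : Finite (𝒪[P.K] ⧸ Ideal.span {π}) := by rw [hπ]; exact P.toLoc.fin
  obtain ⟨v, cc, hv, hcc, hcc0⟩ := hNEW 𝒪[P.K] π
  have hqq : Nat.card (𝒪[P.K] ⧸ Ideal.span {π}) = P.q := by
    rw [← Place.toLoc_q, hπ]; rfl
  rw [hqq] at hv
  obtain ⟨z, hz, hzd⟩ := hDET 𝒪[P.K] Ω (Fin (finrank ℚ F)) n (fun i j => e i (x j)) l M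
    (fun j => ((f j).leadingCoeff : Ω) ^ m j) hl
    (fun j S l' hl' => int_hyp hEMB hINT (hf j) (hx j) (hm j) e S (M j) l' hl')
    π P.q v cc hv hcc hcc0 T' t ht E hE2
  -- the square
  have hsq : ((r : ℤ) : Ω) = algebraMap 𝒪[P.K] Ω (π ^ (2 * E)) * z ^ 2 := by
    have h1 : ((r : ℤ) : Ω) = (((r : ℚ)) : Ω) := by push_cast; rfl
    have h2 : (((∏ j, (((f j).leadingCoeff : ℚ) ^ m j) ^ M j) ^ 2 * d : ℚ) : Ω) =
        (∏ j, (((f j).leadingCoeff : Ω) ^ m j) ^ M j) ^ 2 * (d : Ω) := by push_cast; rfl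
    rw [h1, hr, h2, hd Ω e, ← mul_pow, hzd, mul_pow, ← map_pow, ← pow_mul, mul_comm E 2]
  have hπ0 : π ≠ 0 := by
    intro h0
    have h1 : Associated ((P.p : ℕ) : 𝒪[P.K]) (unif P.K ^ P.e) := P.toLoc.assoc
    rw [← hπ, h0, zero_pow (by have := P.he; omega)] at h1
    have h2 : ((P.p : ℕ) : 𝒪[P.K]) = 0 := (associated_zero_iff_eq_zero _).mp h1
    have h3 : P.p = 0 := by exact_mod_cast h2
    exact P.hp.ne_zero h3
  have hπK : (π : P.K) ^ (2 * E) ≠ 0 := by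
    refine pow_ne_zero _ ?_
    intro h0
    exact hπ0 (Subtype.ext h0)
  set w : P.K := (r : P.K) / (π : P.K) ^ (2 * E) with hw
  have hwz : algebraMap P.K Ω w = z ^ 2 := by
    rw [hw, map_div₀, map_intCast, hsq]
    have h1 : algebraMap 𝒪[P.K] Ω (π ^ (2 * E)) =
        algebraMap P.K Ω ((π : P.K) ^ (2 * E)) := by
      rw [IsScalarTower.algebraMap_apply 𝒪[P.K] P.K Ω]
      rfl
    rw [h1]
    have h2 : algebraMap P.K Ω ((π : P.K) ^ (2 * E)) ≠ 0 := by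
      rw [Ne, map_eq_zero]
      exact hπK
    rw [mul_div_assoc, mul_comm, div_mul_cancel₀ _ h2]
  have hwi : IsIntegral 𝒪[P.K] w := by
    have h1 : IsIntegral 𝒪[P.K] (algebraMap P.K Ω w) := by
      rw [hwz]
      exact hz.pow 2
    exact (isIntegral_algebraMap_iff (algebraMap P.K Ω).injective).mp h1
  have hwm : w ∈ 𝒪[P.K] := (Valuation.integer.integers (valuation P.K)).mem_of_integral hwi
  refine ⟨⟨w, hwm⟩, ?_⟩
  apply Subtype.ext
  change ((r : 𝒪[P.K]) : P.K) = ((π ^ (2 * E) : 𝒪[P.K]) : P.K) * w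
  have h1 : ((r : 𝒪[P.K]) : P.K) = (r : P.K) := by
    exact map_intCast (𝒪[P.K]).subtype r
  have h2 : ((π ^ (2 * E) : 𝒪[P.K]) : P.K) = (π : P.K) ^ (2 * E) := rfl
  rw [h1, h2, hw, mul_comm, div_mul_cancel₀ _ hπK]

end Pool.Agent.Y642.ND
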