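import Mathlib
import Pool.Agent.Y642.ND.Loc

/-!
# The main inequality
-/

set_option autoImplicit false

open Finset Polynomial Module ValuativeRel Pool.Agent.Y642.LZ

universe u v

namespace Pool.Agent.Y642.ND

/-- the integer `r` -/
lemma exists_r (hEMB : S_EMB.{u}) (hINT : S_INT.{u})
    (hDET : S_DET.{u}) {F : Type} [Field F] [NumberField F] {n : ℕ}
    {x : Fin n → F} {f : Fin n → ℤ[X]} (hf : ∀ j, Irreducible (f j))
    (hx : ∀ j, aeval (x j) (f j) = 0) {m M : Fin n → ℕ}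
    (hm : ∀ j, m j * (f j).natDegree = finrank ℚ F)
    {l : Fin (finrank ℚ F) → Fin n → ℕ} (hl : ∀ k j, l k j ≤ M j) {d : ℚ}
    (hd : ∀ (Ω : Type u) [Field Ω] [CharZero Ω] [IsAlgClosed Ω]
      (e : Fin (finrank ℚ F) ≃ (F →+* Ω)),
      (d : Ω) = (Matrix.of fun i k : Fin (finrank ℚ F) => ∏ j, e i (x j) ^ l k j).det ^ 2) :
    ∃ r : ℤ, (r : ℚ) = (∏ j, (((f j).leadingCoeff : ℚ) ^ m j) ^ M j) ^ 2 * d := by
  classical
  have hac : IsAlgClosed (ULift.{u} ℂ) := algClosed_ulift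
  have hch : CharZero (ULift.{u} ℂ) := ⟨fun a b h => by
    have := congrArg ULift.down h
    simpa using this⟩
  set Ω := ULift.{u} ℂ with hΩ
  have hcard : Fintype.card (Fin (finrank ℚ F)) = Fintype.card (F →+* Ω) := by
    rw [Fintype.card_fin, NumberField.Embeddings.card]
  let e : Fin (finrank ℚ F) ≃ (F →+* Ω) := Fintype.equivOfCardEq hcard
  obtain ⟨z, hz, hzd⟩ := hDET (integralClosure ℤ Ω) Ω (Fin (finrank ℚ F)) n (fun i j => e i (x j)) l M
    (fun j => ((f j).leadingCoeff : Ω) ^ m j) hl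
    (fun j S l' hl' => int_hyp hEMB hINT (hf j) (hx j) (hm j) e S (M j) l' hl')
    1 1 (fun _ => 0) (fun m k => if k = m then 1 else 0)
    (fun k t => by simp) (fun m t => by simp)
    (fun m k h => by simp [h.ne']) ∅ (fun _ _ => 0) (by simp) 0 (by simp)
  have hz' : IsIntegral ℤ z := isIntegral_trans (A := integralClosure ℤ Ω) z hz
  rw [pow_zero, map_one, one_mul] at hzd
  set y : ℚ := (∏ j, (((f j).leadingCoeff : ℚ) ^ m j) ^ M j) ^ 2 * d with hy
  have h1 : algebraMap ℚ Ω y = z ^ 2 := by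
    have h3 : algebraMap ℚ Ω y = (∏ j, (((f j).leadingCoeff : Ω) ^ m j) ^ M j) ^ 2 *
        (d : Ω) := by
      rw [hy, map_mul, map_pow, map_prod, eq_ratCast (algebraMap ℚ Ω) d]
      congr 2
      refine Finset.prod_congr rfl fun j _ => ?_
      rw [map_pow, map_pow, map_intCast]
    rw [h3, hd Ω e, ← mul_pow, hzd]
  have h2 : IsIntegral ℤ y := by
    have h3 : IsIntegral ℤ (algebraMap ℚ Ω y) := by
      rw [h1]
      exact hz'.pow 2
    exact (isIntegral_algebraMap_iff (algebraMap ℚ Ω).injective).mp h3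
  obtain ⟨r, hr⟩ := IsIntegrallyClosed.isIntegral_iff.mp h2
  exact ⟨r, by simpa using hr⟩

/-- the size of the integer `r` -/
lemma log_r (hEMB0 : S_EMB.{0}) (hARC : S_ARC) {F : Type} [Field F] [NumberField F] {n : ℕ}
    {x : Fin n → F} {f : Fin n → ℤ[X]} (hf : ∀ j, Irreducible (f j))
    (hx : ∀ j, aeval (x j) (f j) = 0) {m M : Fin n → ℕ}
    (hm : ∀ j, m j * (f j).natDegree = finrank ℚ F)
    {l : Fin (finrank ℚ F) → Fin n → ℕ} (hl : ∀ k j, l k j ≤ M j) {d : ℚ} (hd0 : d ≠ 0)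
    (hd : ∀ (Ω : Type u) [Field Ω] [CharZero Ω] [IsAlgClosed Ω]
      (e : Fin (finrank ℚ F) ≃ (F →+* Ω)),
      (d : Ω) = (Matrix.of fun i k : Fin (finrank ℚ F) => ∏ j, e i (x j) ^ l k j).det ^ 2)
    {r : ℤ} (hr : (r : ℚ) = (∏ j, (((f j).leadingCoeff : ℚ) ^ m j) ^ M j) ^ 2 * d) :
    r ≠ 0 ∧ Real.log |(r : ℝ)| ≤ (finrank ℚ F : ℝ) * Real.log (finrank ℚ F) +
      2 * (finrank ℚ F : ℝ) * ∑ j, (M j : ℝ) * wh (f j) := by
  classical
  have hac : IsAlgClosed (ULift.{u} ℂ) := algClosed_ulift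
  have hch : CharZero (ULift.{u} ℂ) := ⟨fun a b h => by
    have := congrArg ULift.down h
    simpa using this⟩
  have hlc : ∀ j, ((f j).leadingCoeff : ℚ) ≠ 0 := fun j => by
    exact_mod_cast leadingCoeff_ne_zero.mpr (hf j).ne_zero
  have hr0 : r ≠ 0 := by
    intro h0
    rw [h0, Int.cast_zero] at hr
    refine mul_ne_zero (pow_ne_zero 2 (Finset.prod_ne_zero_iff.mpr fun j _ =>
      pow_ne_zero _ (pow_ne_zero _ (hlc j)))) hd0 hr.symm
  refine ⟨hr0, ?_⟩
  have hcard : Fintype.card (Fin (finrank ℚ F)) = Fintype.card (F →+* ULift.{u} ℂ) := by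
    rw [Fintype.card_fin, NumberField.Embeddings.card]
  let e : Fin (finrank ℚ F) ≃ (F →+* ULift.{u} ℂ) := Fintype.equivOfCardEq hcard
  set φ : ULift.{u} ℂ ≃+* ℂ := ULift.ringEquiv with hφ
  -- the embeddings in the complex numbers
  let e' : Fin (finrank ℚ F) ≃ (F →+* ℂ) := e.trans
    { toFun := fun σ => (φ : ULift.{u} ℂ →+* ℂ).comp σ
      invFun := fun σ => (φ.symm : ℂ →+* ULift.{u} ℂ).comp σ
      left_inv := fun σ => by ext y; simp
      right_inv := fun σ => by ext y; simp }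
  have he' : ∀ i y, e' i y = φ (e i y) := fun i y => rfl
  have hdC : (d : ℂ) = (Matrix.of fun i k : Fin (finrank ℚ F) =>
      ∏ j, e' i (x j) ^ l k j).det ^ 2 := by
    have h1 := congrArg φ (hd (ULift.{u} ℂ) e)
    rw [map_ratCast, map_pow, RingEquiv.map_det] at h1
    rw [h1]
    congr 2
    ext i k
    simp [he', map_prod, map_pow]
  have hA := hARC (finrank ℚ F) n (fun i j => e' i (x j)) l M hl
  rw [← norm_pow, ← hdC] at hA
  have hnd : ‖((d : ℚ) : ℂ)‖ = |(d : ℝ)| := by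
    rw [show ((d : ℚ) : ℂ) = ((d : ℝ) : ℂ) by push_cast; rfl, Complex.norm_real,
      Real.norm_eq_abs]
  rw [hnd] at hA
  have hD0 : (0 : ℝ) < finrank ℚ F := by exact_mod_cast (finrank_pos : 0 < finrank ℚ F)
  have hmx : ∀ i j, (0 : ℝ) < max 1 ‖e' i (x j)‖ := fun i j =>
    lt_of_lt_of_le one_pos (le_max_left _ _)
  have hdpos : 0 < |(d : ℝ)| := abs_pos.mpr (by exact_mod_cast hd0)
  have h1 := Real.log_le_log hdpos hA
  rw [Real.log_mul (pow_pos hD0 _).ne'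
    (Finset.prod_pos fun i _ => Finset.prod_pos fun j _ => pow_pos (hmx i j) _).ne',
    Real.log_pow, Real.log_prod (fun i _ => (Finset.prod_pos fun j _ =>
      pow_pos (hmx i j) _).ne')] at h1
  have h2 : ∑ i, Real.log (∏ j, (max 1 ‖e' i (x j)‖) ^ (2 * M j)) =
      ∑ j, 2 * (M j : ℝ) * ∑ σ : F →+* ℂ, Real.log (max 1 ‖σ (x j)‖) := by
    have h3 : ∀ i, Real.log (∏ j, (max 1 ‖e' i (x j)‖) ^ (2 * M j)) =
        ∑ j, 2 * (M j : ℝ) * Real.log (max 1 ‖e' i (x j)‖) := by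
      intro i
      rw [Real.log_prod (fun j _ => (pow_pos (hmx i j) _).ne')]
      refine Finset.sum_congr rfl fun j _ => ?_
      rw [Real.log_pow]
      push_cast
      ring
    rw [Finset.sum_congr rfl fun i _ => h3 i, Finset.sum_comm]
    refine Finset.sum_congr rfl fun j _ => ?_
    rw [← Finset.mul_sum]
    congr 1
    exact Equiv.sum_comp e' (fun σ : F →+* ℂ => Real.log (max 1 ‖σ (x j)‖))
  rw [h2] at h1
  -- the leading coefficients
  have h4 : Real.log |(r : ℝ)| = (∑ j, 2 * (M j : ℝ) * ((m j : ℝ) *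
      Real.log |((f j).leadingCoeff : ℝ)|)) + Real.log |(d : ℝ)| := by
    have h5 : (r : ℝ) = (∏ j, (((f j).leadingCoeff : ℝ) ^ m j) ^ M j) ^ 2 * (d : ℝ) := by
      have := congrArg (fun t : ℚ => (t : ℝ)) hr
      push_cast at this
      exact this
    have hlcR : ∀ j, |((f j).leadingCoeff : ℝ)| ≠ 0 := fun j => by
      rw [Ne, abs_eq_zero]
      exact_mod_cast leadingCoeff_ne_zero.mpr (hf j).ne_zero
    rw [h5, abs_mul, abs_pow, Finset.abs_prod, Real.log_mul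
      (pow_ne_zero 2 (Finset.prod_ne_zero_iff.mpr fun j _ => by
        rw [abs_pow, abs_pow]
        exact pow_ne_zero _ (pow_ne_zero _ (hlcR j)))) hdpos.ne', Real.log_pow,
      Real.log_prod (fun j _ => by
        rw [abs_pow, abs_pow]
        exact pow_ne_zero _ (pow_ne_zero _ (hlcR j))), Finset.mul_sum]
    congr 1
    refine Finset.sum_congr rfl fun j _ => ?_
    rw [abs_pow, abs_pow, Real.log_pow, Real.log_pow]
    push_cast
    ring
  rw [h4]
  have h6 : ∀ j, 2 * (M j : ℝ) * ((m j : ℝ) * Real.log |((f j).leadingCoeff : ℝ)|) +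
      2 * (M j : ℝ) * ∑ σ : F →+* ℂ, Real.log (max 1 ‖σ (x j)‖) =
      2 * (finrank ℚ F : ℝ) * ((M j : ℝ) * wh (f j)) := by
    intro j
    have h7 := mah hEMB0 (hf j) (hx j) (hm j)
    rw [← mul_add, h7]
    ring
  have h8 : (∑ j, 2 * (M j : ℝ) * ((m j : ℝ) * Real.log |((f j).leadingCoeff : ℝ)|)) +
      ∑ j, 2 * (M j : ℝ) * ∑ σ : F →+* ℂ, Real.log (max 1 ‖σ (x j)‖) =
      2 * (finrank ℚ F : ℝ) * ∑ j, (M j : ℝ) * wh (f j) := by
    rw [← Finset.sum_add_distrib, Finset.sum_congr rfl fun j _ => h6 j, ← Finset.mul_sum]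
  linarith

theorem main_ineq (hEMB0 : S_EMB.{0}) (hEMB : S_EMB.{u}) (hDEG : S_DEG) (hBAS : S_BAS.{u})
    (hNEW : S_NEW.{u}) (hINT : S_INT.{u})
    (hDET : S_DET.{u}) (hCNT : S_CNT) (hARC : S_ARC) {F : Type} [Field F] [NumberField F]
    {n : ℕ} (hn : 1 ≤ n)
    {x : Fin n → F} {f : Fin n → ℤ[X]} (hf : ∀ j, Irreducible (f j))
    (hx : ∀ j, aeval (x j) (f j) = 0) {M : Fin n → ℕ}
    (hM : Submodule.span ℚ {z : F | ∃ k : Fin n → ℕ, (∀ j, k j ≤ M j) ∧ z = ∏ j, x j ^ k j} = ⊤)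
    {ι : Type v} (s : Finset ι) (P : ι → Place.{u}) (hinj : Set.InjOn (fun i => (P i).p) s)
    (T : (i : ι) → Finset (F →+* (P i).K))
    (hT : ∀ i ∈ s, ∀ τ ∈ T i, ∀ j, τ (x j) ∈ 𝒪[(P i).K]) :
    ∑ i ∈ s, 2 * Real.log (P i).p / ((P i).e * (P i).q) * gain n (P i).q (T i).card ≤
      (finrank ℚ F : ℝ) * Real.log (finrank ℚ F) +
      2 * (finrank ℚ F : ℝ) * ∑ j, (M j : ℝ) * wh (f j) := by
  classical
  choose m hm using fun j => hDEG F (x j) (f j) (hf j) (hx j)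
  obtain ⟨l, d, hl, hd0, hd⟩ := hBAS F n x M hM
  obtain ⟨r, hr⟩ := exists_r hEMB hINT hDET hf hx hm hl hd
  obtain ⟨hr0, hlog⟩ := log_r hEMB0 hARC hf hx hm hl hd0 hd hr
  refine le_trans ?_ hlog
  refine le_trans (Finset.sum_le_sum (g := fun i => (padicValInt (P i).p r : ℝ) *
    Real.log (P i).p) fun i hi => ?_) (log_ge s (fun i => (P i).p) (fun i _ => (P i).hp) hinj hr0)
  obtain ⟨E, hE1, hE2⟩ := locl (P i) hEMB hNEW hINT hDET hCNT hn hf hx hm hl hd hr (T i) (hT i hi)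
  have h1 : 2 * E ≤ (P i).e * padicValInt (P i).p r :=
    val_le (P i).toLoc.notUnit (P i).hp (P i).he (P i).toLoc.assoc hr0 hE2
  have h2 : (2 : ℝ) * E ≤ (P i).e * padicValInt (P i).p r := by exact_mod_cast h1
  have he0 : (0 : ℝ) < (P i).e := by exact_mod_cast (P i).he
  have hq2 : 2 ≤ (P i).q := by
    have := (P i).toLoc.two_le_q
    rwa [Place.toLoc_q] at this
  have hq0 : (0 : ℝ) < (P i).q := by exact_mod_cast (by omega : 0 < (P i).q)
  have hlog0 : 0 ≤ Real.log (P i).p := Real.log_natCast_nonneg _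
  have h3 : 2 * Real.log (P i).p / ((P i).e * (P i).q) * gain n (P i).q (T i).card ≤
      2 * Real.log (P i).p / ((P i).e * (P i).q) * ((P i).q * E) := by
    apply mul_le_mul_of_nonneg_left hE1
    positivity
  refine h3.trans ?_
  have h4 : 2 * Real.log (P i).p / ((P i).e * (P i).q) * ((P i).q * E) =
      (2 * E / (P i).e) * Real.log (P i).p := by
    field_simp
  rw [h4]
  apply mul_le_mul_of_nonneg_right _ hlog0
  rw [div_le_iff₀ he0]
  linarith

end Pool.Agent.Y642.ND
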