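import Mathlib
import Pool.Agent.Y642.ND.Asm

/-!
# Embeddings in a local field at which a coordinate is not integral
-/

set_option autoImplicit false

open Finset Polynomial Module ValuativeRel Pool.Agent.Y642.LZ

universe u v

namespace Pool.Agent.Y642.ND

lemma wh_nonneg {f : ℤ[X]} (hf : f ≠ 0) : 0 ≤ wh f := by
  unfold wh
  refine div_nonneg (Real.log_nonneg ?_) (Nat.cast_nonneg _)
  apply one_le_mahlerMeasure_of_one_le_norm_leadingCoeff
  rw [leadingCoeff_map_of_injective (RingHom.injective_int _)]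
  have h1 : (f.leadingCoeff : ℤ) ≠ 0 := leadingCoeff_ne_zero.mpr hf
  have h2 : 1 ≤ |f.leadingCoeff| := Int.one_le_abs h1
  have h3 : ‖(Int.castRingHom ℂ) f.leadingCoeff‖ = ((|f.leadingCoeff| : ℤ) : ℝ) := by
    rw [eq_intCast, Complex.norm_intCast, Int.cast_abs]
  rw [h3]
  exact_mod_cast h2

lemma inv_dvd {K : Type u} [Field K] [ValuativeRel K] [TopologicalSpace K]
    [IsNonarchimedeanLocalField K] [CharZero K] {y : K} (hy : y ∉ 𝒪[K]) :
    ∃ w : 𝒪[K], y⁻¹ = ((unif K * w : 𝒪[K]) : K) := by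
  have hv : ¬ valuation K y ≤ 1 := fun h => hy ((Valuation.mem_integer_iff _ _).mpr h)
  push Not at hv
  have hy0 : y ≠ 0 := by
    rintro rfl
    rw [map_zero] at hv
    exact not_lt_zero' hv
  have h1 : valuation K y⁻¹ < 1 := by
    rw [map_inv₀]
    exact inv_lt_one_of_one_lt₀ hv
  have h2 : y⁻¹ ∈ 𝒪[K] := (Valuation.mem_integer_iff _ _).mpr h1.le
  have h3 : (⟨y⁻¹, h2⟩ : 𝒪[K]) ∈ 𝓂[K] := by
    rw [IsLocalRing.mem_maximalIdeal, mem_nonunits_iff]
    intro hu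
    obtain ⟨z, hz⟩ := hu.exists_right_inv
    have h4 := congrArg (fun t : 𝒪[K] => valuation K (t : K)) hz
    have h5 : valuation K (y⁻¹ * (z : K)) = 1 := by
      have h6 : (((⟨y⁻¹, h2⟩ : 𝒪[K]) * z : 𝒪[K]) : K) = y⁻¹ * (z : K) := rfl
      have h7 : ((1 : 𝒪[K]) : K) = 1 := rfl
      simp only [h6, h7, map_one] at h4
      exact h4
    rw [map_mul] at h5
    have h6 : valuation K (z : K) ≤ 1 := (Valuation.mem_integer_iff _ _).mp z.2
    have h7 : valuation K y⁻¹ * valuation K (z : K) < 1 :=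
      mul_lt_one_of_lt_of_le h1 h6
    exact h7.ne h5
  rw [unif_spec K, Ideal.mem_span_singleton] at h3
  obtain ⟨w, hw⟩ := h3
  exact ⟨w, by rw [← hw]⟩

lemma nonint_val (P : Place.{u}) (hEMB : S_EMB.{u}) (hINT : S_INT.{u})
    {F : Type} [Field F] [NumberField F] {x : F} {f : ℤ[X]} (hf : Irreducible f)
    (hx : aeval x f = 0) {m : ℕ} (hm : m * f.natDegree = finrank ℚ F)
    (S : Finset (F →+* P.K)) (hS : ∀ τ ∈ S, τ x ∉ 𝒪[P.K]) :
    S.card ≤ P.e * padicValInt P.p (f.leadingCoeff ^ m) := by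
  classical
  have hchar : CharZero (AlgebraicClosure P.K) :=
    charZero_of_injective_algebraMap (algebraMap P.K (AlgebraicClosure P.K)).injective
  set Ω := AlgebraicClosure P.K with hΩ
  have hcard : Fintype.card (Fin (finrank ℚ F)) = Fintype.card (F →+* Ω) := by
    rw [Fintype.card_fin, NumberField.Embeddings.card]
  let e : Fin (finrank ℚ F) ≃ (F →+* Ω) := Fintype.equivOfCardEq hcard
  let c : (F →+* P.K) → Fin (finrank ℚ F) := fun τ => e.symm ((algebraMap P.K Ω).comp τ)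
  have hc : Function.Injective c := by
    intro τ τ' h
    have h1 := e.symm.injective h
    ext y
    have h2 := RingHom.congr_fun h1 y
    exact (algebraMap P.K Ω).injective h2
  have h1 := int_hyp hEMB hINT hf hx hm e (S.image c) 1 (fun _ => 1) (fun _ _ => le_rfl)
  simp only [pow_one] at h1
  rw [Finset.prod_image hc.injOn] at h1
  have h2 : ((f.leadingCoeff : Ω) ^ m) * ∏ τ ∈ S, e (c τ) x =
      algebraMap P.K Ω ((f.leadingCoeff : P.K) ^ m * ∏ τ ∈ S, τ x) := by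
    rw [map_mul, map_pow, map_intCast, map_prod]
    congr 1
    refine Finset.prod_congr rfl fun τ _ => ?_
    simp only [c, Equiv.apply_symm_apply]
    rfl
  rw [h2] at h1
  have h3 : IsIntegral 𝒪[P.K] ((f.leadingCoeff : P.K) ^ m * ∏ τ ∈ S, τ x) :=
    ((isIntegral_algebraMap_iff (algebraMap P.K Ω).injective).mp h1).tower_top
  have h4 := (Valuation.integer.integers (valuation P.K)).mem_of_integral h3
  choose! w hw using fun τ (hτ : τ ∈ S) => inv_dvd (hS τ hτ)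
  have hlc0 : f.leadingCoeff ≠ 0 := leadingCoeff_ne_zero.mpr hf.ne_zero
  have h5 : unif P.K ^ S.card ∣ (((f.leadingCoeff ^ m : ℤ)) : 𝒪[P.K]) := by
    refine ⟨(∏ τ ∈ S, w τ) * ⟨_, h4⟩, ?_⟩
    apply Subtype.ext
    have h6 : (((f.leadingCoeff ^ m : ℤ) : 𝒪[P.K]) : P.K) = (f.leadingCoeff : P.K) ^ m := by
      rw [← Int.cast_pow]
      exact map_intCast (𝒪[P.K]).subtype _
    rw [h6]
    have h7 : ((unif P.K ^ S.card * ((∏ τ ∈ S, w τ) * ⟨_, h4⟩) : 𝒪[P.K]) : P.K) =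
        (∏ τ ∈ S, ((unif P.K * w τ : 𝒪[P.K]) : P.K)) *
          ((f.leadingCoeff : P.K) ^ m * ∏ τ ∈ S, τ x) := by
      have h8 : (∏ τ ∈ S, ((unif P.K * w τ : 𝒪[P.K]) : P.K)) =
          (((∏ τ ∈ S, (unif P.K * w τ)) : 𝒪[P.K]) : P.K) := by
        rw [show (((∏ τ ∈ S, (unif P.K * w τ)) : 𝒪[P.K]) : P.K) =
          (𝒪[P.K]).subtype (∏ τ ∈ S, (unif P.K * w τ)) from rfl, map_prod]
        rfl
      rw [h8, Finset.prod_mul_distrib, Finset.prod_const, ← mul_assoc]
      rfl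
    rw [h7, Finset.prod_congr rfl fun τ hτ => (hw τ hτ).symm]
    have h9 : (∏ τ ∈ S, (τ x)⁻¹) * ∏ τ ∈ S, τ x = 1 := by
      rw [← Finset.prod_mul_distrib]
      refine Finset.prod_eq_one fun τ hτ => ?_
      refine inv_mul_cancel₀ ?_
      intro h0
      apply hS τ hτ
      rw [h0]
      exact Subring.zero_mem _
    calc (f.leadingCoeff : P.K) ^ m = ((∏ τ ∈ S, (τ x)⁻¹) * ∏ τ ∈ S, τ x) *
          (f.leadingCoeff : P.K) ^ m := by rw [h9, one_mul]
      _ = _ := by ring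
  exact val_le P.toLoc.notUnit P.hp P.he P.toLoc.assoc (pow_ne_zero m hlc0) h5

lemma nonint (hEMB0 : S_EMB.{0}) (hEMB : S_EMB.{u}) (hINT : S_INT.{u})
    {F : Type} [Field F] [NumberField F] {x : F} {f : ℤ[X]} (hf : Irreducible f)
    (hx : aeval x f = 0) {m : ℕ} (hm : m * f.natDegree = finrank ℚ F)
    {ι : Type v} (s : Finset ι) (P : ι → Place.{u}) (hinj : Set.InjOn (fun i => (P i).p) s)
    (S : (i : ι) → Finset (F →+* (P i).K)) (hS : ∀ i ∈ s, ∀ τ ∈ S i, τ x ∉ 𝒪[(P i).K]) :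
    ∑ i ∈ s, ((S i).card : ℝ) * (Real.log (P i).p / (P i).e) ≤ (finrank ℚ F : ℝ) * wh f := by
  have hlc0 : f.leadingCoeff ≠ 0 := leadingCoeff_ne_zero.mpr hf.ne_zero
  have h7 := log_ge s (fun i => (P i).p) (fun i _ => (P i).hp) hinj (pow_ne_zero m hlc0)
  have h8 := mah hEMB0 hf hx hm
  have h9 : 0 ≤ ∑ σ : F →+* ℂ, Real.log (max 1 ‖σ x‖) :=
    Finset.sum_nonneg fun σ _ => Real.log_nonneg (le_max_left _ _)
  have h10 : Real.log |((f.leadingCoeff ^ m : ℤ) : ℝ)| =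
      (m : ℝ) * Real.log |(f.leadingCoeff : ℝ)| := by
    rw [Int.cast_pow, abs_pow, Real.log_pow]
  rw [h10] at h7
  have h12 : ∑ i ∈ s, ((S i).card : ℝ) * (Real.log (P i).p / (P i).e) ≤
      ∑ i ∈ s, (padicValInt (P i).p (f.leadingCoeff ^ m) : ℝ) * Real.log (P i).p := by
    refine Finset.sum_le_sum fun i hi => ?_
    have h6 := nonint_val (P i) hEMB hINT hf hx hm (S i) (hS i hi)
    have he0 : (0 : ℝ) < (P i).e := by exact_mod_cast (P i).he
    have hlog0 : 0 ≤ Real.log (P i).p := Real.log_natCast_nonneg _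
    have h11 : ((S i).card : ℝ) ≤ (P i).e * padicValInt (P i).p (f.leadingCoeff ^ m) := by
      exact_mod_cast h6
    refine (mul_le_mul_of_nonneg_right h11 (by positivity)).trans (le_of_eq ?_)
    field_simp
  linarith

end Pool.Agent.Y642.ND
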