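import Mathlib

/-!
# Project ND, real conjugates: statements
-/

set_option autoImplicit false

open Finset

namespace Pool.Agent.Y642.ND

/-- cells on the real line on which the powers up to `M` have rapidly decreasing expansions -/
def S_CELL : Prop := ∀ M : ℕ, ∃ (N : ℕ) (lab : ℝ → Fin N) (p : ℝ → ℕ → ℝ)
  (c : Fin N → ℕ → ℕ → ℝ), (N : ℝ) ≤ 16 * Real.log (M + 2) ∧
  ∀ (x : ℝ) (m : ℕ), m ≤ M →
    (x ^ m = (max 1 |x|) ^ M * ∑ k ∈ range (M + 1), p x k * c (lab x) k m) ∧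
    ∀ k : ℕ, k ≤ M → |p x k * c (lab x) k m| ≤ 3 / 4 ^ k

/-- a determinant some of whose rows lie in few cells -/
def S_RDET : Prop := ∀ (D n B : ℕ) (W : Matrix (Fin D) (Fin D) ℂ) (T : Finset (Fin D))
  (K : Type) (cell : Fin D → K) (s : Fin D → ℝ)
  (p : Fin D → (Fin n → Fin (B + 1)) → ℂ) (c : K → (Fin n → Fin (B + 1)) → Fin D → ℂ) (L : ℝ),
  0 ≤ L → (∀ i, 0 ≤ s i) →
  (∀ i ∈ T, ∀ k, W i k = (s i : ℂ) * ∑ μ, p i μ * c (cell i) μ k) →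
  (∀ i ∈ T, ∀ μ k, ‖p i μ * c (cell i) μ k‖ ≤ L / 4 ^ (∑ j, (μ j : ℕ))) →
  (∀ i, i ∉ T → ∀ k, ‖W i k‖ ≤ s i) →
  ∀ E : ℕ, (∀ g : Fin D → Fin n → ℕ,
    (∀ i ∈ T, ∀ i' ∈ T, cell i = cell i' → g i = g i' → i = i') → E ≤ ∑ i ∈ T, ∑ j, g i j) →
  ‖W.det‖ ≤ (1 / 2) ^ E * (2 ^ n * L) ^ T.card * Real.sqrt ((D : ℝ) ^ D) * ∏ i, s i

end Pool.Agent.Y642.ND
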