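import Mathlib
import Pool.Agent.Y642.ND.Asm
import Pool.Agent.Y642.ND.Stm3

/-!
# Real conjugates
-/

set_option autoImplicit false

open Finset Polynomial Module

universe u v

namespace Pool.Agent.Y642.ND

/-- collisions of exponents in `N ^ n` cells -/
lemma real_E (hCNT : S_CNT) {n N : ℕ} (hn : 1 ≤ n) (hN : 1 ≤ N) {J : Type} [Fintype J]
    [DecidableEq J] (T : Finset J) (cell : J → (Fin n → Fin N)) :
    ∃ E : ℕ, (n : ℝ) / (n + 1) * (T.card : ℝ) ^ (1 + 1 / (n : ℝ)) / N - 2 * T.card ≤ E ∧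
      ∀ g : J → Fin n → ℕ, (∀ i ∈ T, ∀ i' ∈ T, cell i = cell i' → g i = g i' → i = i') →
        E ≤ ∑ σ ∈ T, ∑ j, g σ j := by
  classical
  have hn0 : (0 : ℝ) < n := by exact_mod_cast hn
  have hN0 : (0 : ℝ) < N := by exact_mod_cast hN
  set a : ℝ := 1 + 1 / (n : ℝ) with ha
  have ha1 : 1 ≤ a := by rw [ha]; have : 0 ≤ 1 / (n : ℝ) := by positivity
                         linarith
  refine ⟨⌈(n : ℝ) / (n + 1) * (T.card : ℝ) ^ a / N - 2 * T.card⌉₊, Nat.le_ceil _,
    fun g hg => ?_⟩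
  rw [Nat.ceil_le]
  set r : (Fin n → Fin N) → ℝ := fun c => ((T.filter fun i => cell i = c).card : ℝ) with hr
  have hr0 : ∀ c, 0 ≤ r c := fun c => Nat.cast_nonneg _
  have hrsum : ∑ c, r c = T.card := by
    have h0 := Finset.card_eq_sum_card_fiberwise (f := cell) (s := T) (t := Finset.univ)
      (fun i _ => Finset.mem_coe.mpr (Finset.mem_univ _))
    show ∑ c, ((T.filter fun i => cell i = c).card : ℝ) = T.card
    rw [← Nat.cast_sum, ← h0]
  have h1 : ∀ c, (n : ℝ) / (n + 1) * (r c) ^ a - 2 * r c ≤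
      ∑ i ∈ T.filter (fun i => cell i = c), ∑ j, ((g i j : ℕ) : ℝ) := by
    intro c
    have hinj : Set.InjOn g (T.filter fun i => cell i = c) := by
      intro i hi i' hi' h
      rw [Finset.mem_coe, Finset.mem_filter] at hi hi'
      exact hg i hi.1 i' hi'.1 (hi.2.trans hi'.2.symm) h
    have h2 := hCNT n 1 hn le_rfl ((T.filter fun i => cell i = c).image g)
    rw [Finset.card_image_of_injOn hinj, Finset.sum_image hinj] at h2
    simp only [Nat.div_one, Nat.cast_one, sub_self, mul_zero, zero_add, one_mul] at h2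
    exact h2
  have h2 : ∑ c, ((n : ℝ) / (n + 1) * (r c) ^ a - 2 * r c) ≤
      ∑ c, ∑ i ∈ T.filter (fun i => cell i = c), ∑ j, ((g i j : ℕ) : ℝ) :=
    Finset.sum_le_sum fun c _ => h1 c
  rw [Finset.sum_fiberwise, Finset.sum_sub_distrib, ← Finset.mul_sum, ← Finset.mul_sum,
    hrsum] at h2
  have h3 : (T.card : ℝ) ^ a / N ≤ ∑ c, (r c) ^ a := by
    have h4 := Real.rpow_sum_le_const_mul_sum_rpow_of_nonneg
      (Finset.univ : Finset (Fin n → Fin N)) (f := r) ha1 (fun c _ => hr0 c)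
    rw [hrsum, Finset.card_univ, Fintype.card_fun, Fintype.card_fin, Fintype.card_fin] at h4
    have h5 : (((N ^ n : ℕ) : ℝ)) ^ (a - 1) = N := by
      rw [ha, add_sub_cancel_left, Nat.cast_pow, ← Real.rpow_natCast, ← Real.rpow_mul hN0.le,
        mul_one_div_cancel hn0.ne', Real.rpow_one]
    rw [h5] at h4
    rw [div_le_iff₀ hN0]
    linarith
  have h4 : (n : ℝ) / (n + 1) * ((T.card : ℝ) ^ a / N) ≤ (n : ℝ) / (n + 1) * ∑ c, (r c) ^ a :=
    mul_le_mul_of_nonneg_left h3 (by positivity)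
  push_cast
  rw [mul_div_assoc]
  linarith

/-- the determinant with real rows -/
lemma arc_real (hCELL : S_CELL) (hRDET : S_RDET) (hCNT : S_CNT) {D n : ℕ} (hn : 1 ≤ n) (B : ℕ)
    (y : Fin D → Fin n → ℂ) (l : Fin D → Fin n → ℕ) (hl : ∀ k j, l k j ≤ B)
    (T : Finset (Fin D)) (hT : ∀ i ∈ T, ∀ j, (((y i j).re : ℝ) : ℂ) = y i j) :
    ∃ N E : ℕ, 1 ≤ N ∧ (N : ℝ) ≤ 16 * Real.log (B + 2) ∧
      (n : ℝ) / (n + 1) * (T.card : ℝ) ^ (1 + 1 / (n : ℝ)) / N - 2 * T.card ≤ E ∧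
      ‖(Matrix.of fun i k : Fin D => ∏ j, y i j ^ l k j).det‖ ≤
        (1 / 2) ^ E * (2 ^ n * 3 ^ n) ^ T.card * Real.sqrt ((D : ℝ) ^ D) *
          ∏ i, ∏ j, (max 1 ‖y i j‖) ^ B := by
  classical
  obtain ⟨N, lab, p, c, hN, hc⟩ := hCELL B
  have hN1 : 1 ≤ N := by
    have := (lab 0).pos
    omega
  obtain ⟨E, hE1, hE2⟩ := real_E hCNT hn hN1 T (fun i j => lab (y i j).re)
  refine ⟨N, E, hN1, hN, hE1, ?_⟩
  have hnorm : ∀ i ∈ T, ∀ j, ‖y i j‖ = |(y i j).re| := by
    intro i hi j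
    rw [← hT i hi j, Complex.norm_real, Real.norm_eq_abs, Complex.ofReal_re]
  have h1 := hRDET D n B (Matrix.of fun i k : Fin D => ∏ j, y i j ^ l k j) T (Fin n → Fin N)
    (fun i j => lab (y i j).re) (fun i => ∏ j, (max 1 ‖y i j‖) ^ B)
    (fun i μ => ((∏ j, p (y i j).re (μ j) : ℝ) : ℂ))
    (fun κ μ k => ((∏ j, c (κ j) (μ j) (l k j) : ℝ) : ℂ)) (3 ^ n) (by positivity)
    (fun i => Finset.prod_nonneg fun j _ => by positivity) ?_ ?_ ?_ E hE2
  · exact h1
  · -- the expansion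
    intro i hi k
    have h2 : (Matrix.of fun i k : Fin D => ∏ j, y i j ^ l k j) i k =
        ((∏ j, (y i j).re ^ l k j : ℝ) : ℂ) := by
      rw [Matrix.of_apply]
      push_cast
      refine Finset.prod_congr rfl fun j _ => ?_
      rw [hT i hi j]
    rw [h2]
    have h3 : ∏ j, (y i j).re ^ l k j = (∏ j, (max 1 ‖y i j‖) ^ B) *
        ∑ μ : Fin n → Fin (B + 1), (∏ j, p (y i j).re (μ j)) *
          ∏ j, c (lab (y i j).re) (μ j) (l k j) := by
      have h4 : ∀ j, (y i j).re ^ l k j = (max 1 ‖y i j‖) ^ B *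
          ∑ r : Fin (B + 1), p (y i j).re r * c (lab (y i j).re) r (l k j) := by
        intro j
        rw [hnorm i hi j, (hc (y i j).re (l k j) (hl k j)).1, Finset.sum_range]
      rw [Finset.prod_congr rfl fun j _ => h4 j, Finset.prod_mul_distrib]
      congr 1
      rw [Finset.prod_univ_sum, Fintype.piFinset_univ]
      refine Finset.sum_congr rfl fun μ _ => ?_
      rw [Finset.prod_mul_distrib]
    rw [h3]
    push_cast
    rfl
  · -- the size
    intro i hi μ k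
    rw [← Complex.ofReal_mul, Complex.norm_real, Real.norm_eq_abs, ← Finset.prod_mul_distrib,
      Finset.abs_prod]
    calc ∏ j, |p (y i j).re (μ j) * c (lab (y i j).re) (μ j) (l k j)| ≤
          ∏ j, (3 / 4 ^ (μ j : ℕ) : ℝ) := by
          refine Finset.prod_le_prod (fun j _ => abs_nonneg _) fun j _ => ?_
          exact (hc (y i j).re (l k j) (hl k j)).2 _ (Nat.le_of_lt_succ (μ j).2)
      _ = 3 ^ n / 4 ^ (∑ j, (μ j : ℕ)) := by
          rw [Finset.prod_div_distrib, Finset.prod_const, Finset.card_univ, Fintype.card_fin,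
            Finset.prod_pow_eq_pow_sum]
  · intro i _ k
    rw [Matrix.of_apply, norm_prod]
    refine Finset.prod_le_prod (fun j _ => norm_nonneg _) fun j _ => ?_
    rw [norm_pow]
    calc ‖y i j‖ ^ l k j ≤ (max 1 ‖y i j‖) ^ l k j :=
          pow_le_pow_left₀ (norm_nonneg _) (le_max_right _ _) _
      _ ≤ (max 1 ‖y i j‖) ^ B := pow_le_pow_right₀ (le_max_left _ _) (hl k j)

end Pool.Agent.Y642.ND
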