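import Mathlib
import Pool.Agent.Y642.ND.Real
import Pool.Agent.Y642.ND.Non

/-!
# Conjugates over local fields and real conjugates together
-/

set_option autoImplicit false

open Finset Polynomial Module NumberField ValuativeRel Pool.Agent.Y642.LZ

universe u v

namespace Pool.Agent.Y642.ND

lemma log_r_le' (hEMB0 : S_EMB.{0}) {F : Type} [Field F] [NumberField F] {n : ℕ}
    {x : Fin n → F} {f : Fin n → ℤ[X]} (hf : ∀ j, Irreducible (f j))
    (hx : ∀ j, aeval (x j) (f j) = 0) {m M : Fin n → ℕ}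
    (hm : ∀ j, m j * (f j).natDegree = finrank ℚ F) {d : ℚ} (hd0 : d ≠ 0)
    {r : ℤ} (hr : (r : ℚ) = (∏ j, (((f j).leadingCoeff : ℚ) ^ m j) ^ M j) ^ 2 * d) {U : ℝ}
    (hU : Real.log |(d : ℝ)| ≤
      U + ∑ j, 2 * (M j : ℝ) * ∑ σ : F →+* ℂ, Real.log (max 1 ‖σ (x j)‖)) :
    r ≠ 0 ∧ Real.log |(r : ℝ)| ≤ U + 2 * (finrank ℚ F : ℝ) * ∑ j, (M j : ℝ) * wh (f j) := by
  classical
  have hlc : ∀ j, ((f j).leadingCoeff : ℚ) ≠ 0 := fun j => by
    exact_mod_cast leadingCoeff_ne_zero.mpr (hf j).ne_zero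
  have hr0 : r ≠ 0 := by
    intro h0
    rw [h0, Int.cast_zero] at hr
    refine mul_ne_zero (pow_ne_zero 2 (Finset.prod_ne_zero_iff.mpr fun j _ =>
      pow_ne_zero _ (pow_ne_zero _ (hlc j)))) hd0 hr.symm
  have hdpos : 0 < |(d : ℝ)| := abs_pos.mpr (by exact_mod_cast hd0)
  have h4 : Real.log |(r : ℝ)| = (∑ j, 2 * (M j : ℝ) * ((m j : ℝ) *
      Real.log |((f j).leadingCoeff : ℝ)|)) + Real.log |(d : ℝ)| := by
    have h5 : (r : ℝ) = (∏ j, (((f j).leadingCoeff : ℝ) ^ m j) ^ M j) ^ 2 * (d : ℝ) := by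
      have := congrArg (fun t : ℚ => (t : ℝ)) hr
      push_cast at this
      exact this
    have hlcR : ∀ j, |((f j).leadingCoeff : ℝ)| ≠ 0 := fun j => by
      rw [Ne, abs_eq_zero]
      exact_mod_cast leadingCoeff_ne_zero.mpr (hf j).ne_zero
    rw [h5, abs_mul, abs_pow, Finset.abs_prod, Real.log_mul
      (pow_ne_zero 2 (Finset.prod_ne_zero_iff.mpr fun j _ => by
        rw [abs_pow, abs_pow]
        exact pow_ne_zero _ (pow_ne_zero _ (hlcR j)))) hdpos.ne', Real.log_pow,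
      Real.log_prod (fun j _ => by
        rw [abs_pow, abs_pow]
        exact pow_ne_zero _ (pow_ne_zero _ (hlcR j))), Finset.mul_sum]
    congr 1
    refine Finset.sum_congr rfl fun j _ => ?_
    rw [abs_pow, abs_pow, Real.log_pow, Real.log_pow]
    push_cast
    ring
  have h6 : ∀ j, 2 * (M j : ℝ) * ((m j : ℝ) * Real.log |((f j).leadingCoeff : ℝ)|) +
      2 * (M j : ℝ) * ∑ σ : F →+* ℂ, Real.log (max 1 ‖σ (x j)‖) =
      2 * (finrank ℚ F : ℝ) * ((M j : ℝ) * wh (f j)) := by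
    intro j
    have h7 := mah hEMB0 (hf j) (hx j) (hm j)
    rw [← mul_add, h7]
    ring
  have h8 : (∑ j, 2 * (M j : ℝ) * ((m j : ℝ) * Real.log |((f j).leadingCoeff : ℝ)|)) +
      ∑ j, 2 * (M j : ℝ) * ∑ σ : F →+* ℂ, Real.log (max 1 ‖σ (x j)‖) =
      2 * (finrank ℚ F : ℝ) * ∑ j, (M j : ℝ) * wh (f j) := by
    rw [← Finset.sum_add_distrib, Finset.sum_congr rfl fun j _ => h6 j, ← Finset.mul_sum]
  refine ⟨hr0, ?_⟩
  linarith

/-- the discriminant as a complex determinant -/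
lemma to_C {F : Type} [Field F] [NumberField F] {n : ℕ}
    {x : Fin n → F} {l : Fin (finrank ℚ F) → Fin n → ℕ} {d : ℚ}
    (hd : ∀ (Ω : Type u) [Field Ω] [CharZero Ω] [IsAlgClosed Ω]
      (e : Fin (finrank ℚ F) ≃ (F →+* Ω)),
      (d : Ω) = (Matrix.of fun i k : Fin (finrank ℚ F) => ∏ j, e i (x j) ^ l k j).det ^ 2)
    (e' : Fin (finrank ℚ F) ≃ (F →+* ℂ)) :
    (d : ℂ) = (Matrix.of fun i k : Fin (finrank ℚ F) => ∏ j, e' i (x j) ^ l k j).det ^ 2 := by
  classical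
  have hac : IsAlgClosed (ULift.{u} ℂ) := algClosed_ulift
  have hch : CharZero (ULift.{u} ℂ) := ⟨fun a b h => by
    have := congrArg ULift.down h
    simpa using this⟩
  set φ : ULift.{u} ℂ ≃+* ℂ := ULift.ringEquiv with hφ
  let e : Fin (finrank ℚ F) ≃ (F →+* ULift.{u} ℂ) := e'.trans
    { toFun := fun σ => (φ.symm : ℂ →+* ULift.{u} ℂ).comp σ
      invFun := fun σ => (φ : ULift.{u} ℂ →+* ℂ).comp σ
      left_inv := fun σ => by ext y; simp
      right_inv := fun σ => by ext y; simp }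
  have he' : ∀ i y, φ (e i y) = e' i y := fun i y => by
    show φ (φ.symm (e' i y)) = e' i y
    exact φ.apply_symm_apply _
  have h1 := congrArg φ (hd (ULift.{u} ℂ) e)
  rw [map_ratCast, map_pow, RingEquiv.map_det] at h1
  rw [h1]
  congr 2
  ext i k
  simp [he', map_prod, map_pow]

theorem adel_ineq (hEMB0 : S_EMB.{0}) (hEMB : S_EMB.{u}) (hDEG : S_DEG) (hBAS : S_BAS.{u})
    (hNEW : S_NEW.{u}) (hINT : S_INT.{u}) (hDET : S_DET.{u}) (hCNT : S_CNT) (hCELL : S_CELL)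
    (hRDET : S_RDET)
    {F : Type} [Field F] [NumberField F] {n : ℕ} (hn : 1 ≤ n)
    {x : Fin n → F} {f : Fin n → ℤ[X]} (hf : ∀ j, Irreducible (f j))
    (hx : ∀ j, aeval (x j) (f j) = 0) {B : ℕ}
    (hM : Submodule.span ℚ {z : F | ∃ k : Fin n → ℕ, (∀ j, k j ≤ B) ∧ z = ∏ j, x j ^ k j} = ⊤)
    {ι : Type v} (s : Finset ι) (P : ι → Place.{u}) (hinj : Set.InjOn (fun i => (P i).p) s)
    (T : (i : ι) → Finset (F →+* (P i).K))
    (hT : ∀ i ∈ s, ∀ τ ∈ T i, ∀ j, τ (x j) ∈ 𝒪[(P i).K])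
    {R0 : ℕ} (hR0 : R0 ≤ InfinitePlace.nrRealPlaces F) :
    ∃ N : ℕ, 1 ≤ N ∧ (N : ℝ) ≤ 16 * Real.log (B + 2) ∧
      ∑ i ∈ s, 2 * Real.log (P i).p / ((P i).e * (P i).q) * gain n (P i).q (T i).card +
      2 * Real.log 2 * ((n : ℝ) / (n + 1) * (R0 : ℝ) ^ (1 + 1 / (n : ℝ)) / N - 2 * R0) ≤
      (finrank ℚ F : ℝ) * Real.log (finrank ℚ F) + 2 * n * Real.log 6 * R0 +
        2 * (finrank ℚ F : ℝ) * (B * ∑ j, wh (f j)) := by
  classical
  choose m hm using fun j => hDEG F (x j) (f j) (hf j) (hx j)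
  obtain ⟨l, d, hl, hd0, hd⟩ := hBAS F n x (fun _ => B) hM
  obtain ⟨r, hr⟩ := exists_r hEMB hINT hDET hf hx hm hl hd
  have hcard : Fintype.card (Fin (finrank ℚ F)) = Fintype.card (F →+* ℂ) := by
    rw [Fintype.card_fin, NumberField.Embeddings.card]
  let e : Fin (finrank ℚ F) ≃ (F →+* ℂ) := Fintype.equivOfCardEq hcard
  set T0 : Finset (Fin (finrank ℚ F)) :=
    Finset.univ.filter fun i => ComplexEmbedding.IsReal (e i) with hT0
  have hT0card : T0.card = InfinitePlace.nrRealPlaces F := by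
    rw [← InfinitePlace.card_real_embeddings F, Fintype.card_subtype, hT0]
    refine Finset.card_bij (fun i _ => e i) (fun i hi => ?_) (fun i _ i' _ h => e.injective h)
      fun φ hφ => ⟨e.symm φ, ?_, e.apply_symm_apply φ⟩
    · simpa using hi
    · simpa using hφ
  obtain ⟨TR, hTR, hTcard⟩ := Finset.exists_subset_card_eq (hT0card.symm ▸ hR0 : R0 ≤ T0.card)
  have hreal : ∀ i ∈ TR, ∀ j, (((e i (x j)).re : ℝ) : ℂ) = e i (x j) := by
    intro i hi j
    have h1 : ComplexEmbedding.IsReal (e i) := (Finset.mem_filter.mp (hTR hi)).2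
    rw [ComplexEmbedding.isReal_iff] at h1
    have h2 := RingHom.congr_fun h1 (x j)
    rw [ComplexEmbedding.conjugate_coe_eq] at h2
    exact Complex.conj_eq_iff_re.mp h2
  obtain ⟨N, E, hN1, hN, hE, hdet⟩ := arc_real hCELL hRDET hCNT hn B (fun i j => e i (x j)) l hl
    TR hreal
  refine ⟨N, hN1, hN, ?_⟩
  rw [hTcard] at hE hdet
  have hdC := to_C hd e
  set Δ := (Matrix.of fun i k : Fin (finrank ℚ F) => ∏ j, e i (x j) ^ l k j).det with hΔ
  have hnd : |(d : ℝ)| = ‖Δ‖ ^ 2 := by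
    rw [← norm_pow, ← hdC, show ((d : ℚ) : ℂ) = ((d : ℝ) : ℂ) by push_cast; rfl,
      Complex.norm_real, Real.norm_eq_abs]
  have hΔ0 : 0 < ‖Δ‖ := by
    rw [norm_pos_iff]
    intro h0
    rw [h0, zero_pow two_ne_zero] at hdC
    exact hd0 (by exact_mod_cast hdC)
  have hD0 : (0 : ℝ) < finrank ℚ F := by exact_mod_cast (finrank_pos : 0 < finrank ℚ F)
  have hmx : ∀ i j, (0 : ℝ) < max 1 ‖e i (x j)‖ := fun i j =>
    lt_of_lt_of_le one_pos (le_max_left _ _)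
  have hprod : (0 : ℝ) < ∏ i, ∏ j, (max 1 ‖e i (x j)‖) ^ B :=
    Finset.prod_pos fun i _ => Finset.prod_pos fun j _ => pow_pos (hmx i j) _
  have hsq : (0 : ℝ) < Real.sqrt ((finrank ℚ F : ℝ) ^ finrank ℚ F) :=
    Real.sqrt_pos.mpr (pow_pos hD0 _)
  have h6 : (2 : ℝ) ^ n * 3 ^ n = 6 ^ n := by rw [← mul_pow]; norm_num
  rw [h6] at hdet
  have h1 := Real.log_le_log hΔ0 hdet
  rw [Real.log_mul (by positivity) hprod.ne', Real.log_mul (by positivity) hsq.ne',
    Real.log_mul (by positivity) (by positivity), Real.log_pow, Real.log_pow, Real.log_pow,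
    Real.log_sqrt (pow_pos hD0 _).le, Real.log_pow, one_div, Real.log_inv,
    Real.log_prod (fun i _ => (Finset.prod_pos fun j _ => pow_pos (hmx i j) _).ne')] at h1
  have h2 : ∑ i, Real.log (∏ j, (max 1 ‖e i (x j)‖) ^ B) =
      ∑ j, (B : ℝ) * ∑ σ : F →+* ℂ, Real.log (max 1 ‖σ (x j)‖) := by
    have h3 : ∀ i, Real.log (∏ j, (max 1 ‖e i (x j)‖) ^ B) =
        ∑ j, (B : ℝ) * Real.log (max 1 ‖e i (x j)‖) := by
      intro i
      rw [Real.log_prod (fun j _ => (pow_pos (hmx i j) _).ne')]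
      refine Finset.sum_congr rfl fun j _ => ?_
      rw [Real.log_pow]
    rw [Finset.sum_congr rfl fun i _ => h3 i, Finset.sum_comm]
    refine Finset.sum_congr rfl fun j _ => ?_
    rw [← Finset.mul_sum]
    congr 1
    exact Equiv.sum_comp e (fun σ : F →+* ℂ => Real.log (max 1 ‖σ (x j)‖))
  rw [h2] at h1
  have hU : Real.log |(d : ℝ)| ≤
      (-(2 * Real.log 2 * E) + 2 * n * Real.log 6 * R0 +
        (finrank ℚ F : ℝ) * Real.log (finrank ℚ F)) +
      ∑ j : Fin n, 2 * (((fun _ => B) j : ℕ) : ℝ) *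
        ∑ σ : F →+* ℂ, Real.log (max 1 ‖σ (x j)‖) := by
    rw [hnd, Real.log_pow]
    have h7 : ∑ j : Fin n, 2 * (B : ℝ) * ∑ σ : F →+* ℂ, Real.log (max 1 ‖σ (x j)‖) =
        2 * ∑ j : Fin n, (B : ℝ) * ∑ σ : F →+* ℂ, Real.log (max 1 ‖σ (x j)‖) := by
      rw [Finset.mul_sum]
      exact Finset.sum_congr rfl fun j _ => by ring
    show ((2 : ℕ) : ℝ) * Real.log ‖Δ‖ ≤ _ + ∑ j : Fin n, 2 * (B : ℝ) *
      ∑ σ : F →+* ℂ, Real.log (max 1 ‖σ (x j)‖)
    rw [h7]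
    push_cast at h1 ⊢
    linarith
  obtain ⟨hr0, h8⟩ := log_r_le' hEMB0 hf hx (M := fun _ => B) hm hd0 hr hU
  rw [← Finset.mul_sum] at h8
  have hlog2 : 0 < Real.log 2 := Real.log_pos (by norm_num)
  have h9 : 2 * Real.log 2 * ((n : ℝ) / (n + 1) * (R0 : ℝ) ^ (1 + 1 / (n : ℝ)) / N -
      2 * R0) ≤ 2 * Real.log 2 * E :=
    mul_le_mul_of_nonneg_left hE (by positivity)
  have h10 : ∑ i ∈ s, 2 * Real.log (P i).p / ((P i).e * (P i).q) *
      gain n (P i).q (T i).card ≤ Real.log |(r : ℝ)| := by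
    refine le_trans (Finset.sum_le_sum (g := fun i => (padicValInt (P i).p r : ℝ) *
      Real.log (P i).p) fun i hi => ?_)
      (log_ge s (fun i => (P i).p) (fun i _ => (P i).hp) hinj hr0)
    obtain ⟨E', hE1, hE2⟩ := locl (P i) hEMB hNEW hINT hDET hCNT hn hf hx hm hl hd hr (T i)
      (hT i hi)
    have h1 : 2 * E' ≤ (P i).e * padicValInt (P i).p r :=
      val_le (P i).toLoc.notUnit (P i).hp (P i).he (P i).toLoc.assoc hr0 hE2
    have h2 : (2 : ℝ) * E' ≤ (P i).e * padicValInt (P i).p r := by exact_mod_cast h1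
    have he0 : (0 : ℝ) < (P i).e := by exact_mod_cast (P i).he
    have hq2 : 2 ≤ (P i).q := by
      have := (P i).toLoc.two_le_q
      rwa [Place.toLoc_q] at this
    have hq0 : (0 : ℝ) < (P i).q := by exact_mod_cast (by omega : 0 < (P i).q)
    have hlog0 : 0 ≤ Real.log (P i).p := Real.log_natCast_nonneg _
    have h3 : 2 * Real.log (P i).p / ((P i).e * (P i).q) * gain n (P i).q (T i).card ≤
        2 * Real.log (P i).p / ((P i).e * (P i).q) * ((P i).q * E') := by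
      apply mul_le_mul_of_nonneg_left hE1
      positivity
    refine h3.trans ?_
    have h4 : 2 * Real.log (P i).p / ((P i).e * (P i).q) * ((P i).q * E') =
        (2 * E' / (P i).e) * Real.log (P i).p := by
      field_simp
    rw [h4]
    apply mul_le_mul_of_nonneg_right _ hlog0
    rw [div_le_iff₀ he0]
    linarith
  linarith

end Pool.Agent.Y642.ND
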