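import Mathlib

/-!
# Project ND: statements on products of subspaces of a field
-/

set_option autoImplicit false

open Module

namespace Pool.Agent.Y642.ND

/-- a linear version of a theorem of Olson: products of subspaces in a finite extension -/
def S_OLS : Prop := ∀ (k F : Type) [Field k] [Field F] [Algebra k F] [FiniteDimensional k F]
  (A B : Submodule k F), 1 ∈ B → Algebra.adjoin k (B : Set F) = ⊤ → A ≠ ⊥ → A * B ≠ ⊤ →
  2 * finrank k A + finrank k B ≤ 2 * finrank k (A * B : Submodule k F)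

/-- the monomials of small degree in the coordinates of a point generate its field -/
def S_SPAN : Prop := ∀ (F : Type) [Field F] [NumberField F] (n : ℕ), 1 ≤ n →
  ∀ x : Fin n → F, Algebra.adjoin ℚ (Set.range x) = ⊤ →
  ∀ δ : ℕ, 1 ≤ δ → LinearIndependent ℚ (fun k : Fin n → Fin δ => ∏ j, x j ^ (k j : ℕ)) →
  ∃ M : ℕ, M * δ ^ (n - 1) ≤ 3 * finrank ℚ F ∧
    Submodule.span ℚ {z : F | ∃ k : Fin n → ℕ, (∀ j, k j ≤ M) ∧ z = ∏ j, x j ^ k j} = ⊤

end Pool.Agent.Y642.ND
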