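import Mathlib
import Pool.Agent.Y642.ND.Stm2

/-!
# The monomials of small degree in the coordinates of a point generate its field
-/

set_option autoImplicit false

open Module Pointwise

namespace Pool.Agent.Y642.ND

section

variable {F : Type} [Field F] [NumberField F] {n : ℕ}

/-- the monomials with exponents at most `m` -/
def mon (x : Fin n → F) (m : ℕ) : Set F :=
  {z : F | ∃ k : Fin n → ℕ, (∀ j, k j ≤ m) ∧ z = ∏ j, x j ^ k j}

lemma mon_mul (x : Fin n → F) (m s : ℕ) : mon x m * mon x s = mon x (m + s) := by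
  ext z
  constructor
  · rintro ⟨a, ⟨k, hk, rfl⟩, b, ⟨l, hl, rfl⟩, rfl⟩
    refine ⟨fun j => k j + l j, fun j => Nat.add_le_add (hk j) (hl j), ?_⟩
    simp only [pow_add, Finset.prod_mul_distrib]
  · rintro ⟨k, hk, rfl⟩
    refine ⟨∏ j, x j ^ min (k j) m, ⟨fun j => min (k j) m, fun j => min_le_right _ _, rfl⟩,
      ∏ j, x j ^ (k j - min (k j) m), ⟨fun j => k j - min (k j) m, fun j => ?_, rfl⟩, ?_⟩
    · have h1 := hk j
      show k j - min (k j) m ≤ s
      omega
    · show (∏ j, x j ^ min (k j) m) * ∏ j, x j ^ (k j - min (k j) m) = _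
      rw [← Finset.prod_mul_distrib]
      refine Finset.prod_congr rfl fun j _ => ?_
      rw [← pow_add]
      congr 1
      omega

/-- the span of the monomials with exponents at most `m` -/
noncomputable def W (x : Fin n → F) (m : ℕ) : Submodule ℚ F := Submodule.span ℚ (mon x m)

lemma W_mul (x : Fin n → F) (m s : ℕ) : W x m * W x s = W x (m + s) := by
  unfold W
  rw [Submodule.span_mul_span, mon_mul]

lemma one_mem_W (x : Fin n → F) (m : ℕ) : (1 : F) ∈ W x m :=
  Submodule.subset_span ⟨fun _ => 0, fun _ => Nat.zero_le _, by simp⟩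

lemma W_mono (x : Fin n → F) {m s : ℕ} (h : m ≤ s) : W x m ≤ W x s := by
  refine Submodule.span_mono ?_
  rintro z ⟨k, hk, rfl⟩
  exact ⟨k, fun j => (hk j).trans h, rfl⟩

lemma adjoin_W {x : Fin n → F} (hx : Algebra.adjoin ℚ (Set.range x) = ⊤) {s : ℕ} (hs : 1 ≤ s) :
    Algebra.adjoin ℚ (W x s : Set F) = ⊤ := by
  classical
  rw [eq_top_iff, ← hx]
  refine Algebra.adjoin_mono ?_
  rintro z ⟨j, rfl⟩
  refine Submodule.subset_span ⟨fun i => if i = j then 1 else 0, fun i => ?_, ?_⟩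
  · show (if i = j then 1 else 0) ≤ s
    split_ifs
    · exact hs
    · exact Nat.zero_le _
  · simp [Finset.prod_ite_eq', pow_ite]

lemma W_ne_bot (x : Fin n → F) (m : ℕ) : W x m ≠ ⊥ := by
  intro h
  have h1 := one_mem_W x m
  rw [h, Submodule.mem_bot] at h1
  exact one_ne_zero h1

lemma growth (hO : S_OLS) {x : Fin n → F} (hx : Algebra.adjoin ℚ (Set.range x) = ⊤) {s : ℕ}
    (hs : 1 ≤ s) (k : ℕ) :
    W x ((k + 1) * s) = ⊤ ∨ (k + 2) * finrank ℚ (W x s) ≤ 2 * finrank ℚ (W x ((k + 1) * s)) := by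
  induction k with
  | zero =>
    right
    have h0 : (0 + 1) * s = s := by ring
    rw [h0]
  | succ k ih =>
    by_cases htop : W x ((k + 1 + 1) * s) = ⊤
    · exact Or.inl htop
    right
    have h1 : W x ((k + 1) * s) * W x s = W x ((k + 1 + 1) * s) := by
      rw [W_mul]
      congr 1
      ring
    have h2 : W x ((k + 1) * s) ≠ ⊤ := by
      intro h
      apply htop
      rw [eq_top_iff, ← h]
      exact W_mono x (by nlinarith)
    have h3 := ih.resolve_left h2
    have h4 := hO ℚ F (W x ((k + 1) * s)) (W x s) (one_mem_W x s) (adjoin_W hx hs)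
      (W_ne_bot x _) (by rw [h1]; exact htop)
    rw [h1] at h4
    linarith

lemma top_of_growth (hO : S_OLS) {x : Fin n → F} (hx : Algebra.adjoin ℚ (Set.range x) = ⊤)
    {s : ℕ} (hs : 1 ≤ s) {k : ℕ} (hk : 1 ≤ k)
    (h : 2 * finrank ℚ F ≤ (k + 1) * finrank ℚ (W x s)) : W x (k * s) = ⊤ := by
  obtain ⟨k, rfl⟩ : ∃ k', k = k' + 1 := ⟨k - 1, by omega⟩
  rcases growth hO hx hs k with h1 | h1
  · exact h1
  · by_contra hne
    have h2 : finrank ℚ (W x ((k + 1) * s)) < finrank ℚ F :=
      Submodule.finrank_lt hne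
    have h3 : 2 * finrank ℚ F ≤ (k + 2) * finrank ℚ (W x s) := by
      have : k + 1 + 1 = k + 2 := rfl
      rwa [this] at h
    omega

/-- the monomials with exponents at most `M` generate the field, with `M δ^(n-1) ≤ 2 D` -/
theorem span (hO : S_OLS) (hn : 1 ≤ n) {x : Fin n → F}
    (hx : Algebra.adjoin ℚ (Set.range x) = ⊤) {δ : ℕ} (hδ : 1 ≤ δ)
    (hl : LinearIndependent ℚ (fun k : Fin n → Fin δ => ∏ j, x j ^ (k j : ℕ))) :
    ∃ M : ℕ, M * δ ^ (n - 1) ≤ 2 * finrank ℚ F ∧
      Submodule.span ℚ {z : F | ∃ k : Fin n → ℕ, (∀ j, k j ≤ M) ∧ z = ∏ j, x j ^ k j} = ⊤ := by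
  classical
  have hD : 0 < finrank ℚ F := finrank_pos
  rcases Nat.eq_or_lt_of_le hδ with h1 | h1
  · -- `δ = 1`
    refine ⟨2 * finrank ℚ F, by rw [← h1]; simp, ?_⟩
    have h2 : 1 ≤ finrank ℚ (W x 1) := by
      rw [Nat.one_le_iff_ne_zero]
      intro h0
      exact W_ne_bot x 1 (Submodule.finrank_eq_zero.mp h0)
    have h3 := top_of_growth hO hx le_rfl (k := 2 * finrank ℚ F) (by omega) (by nlinarith)
    rw [mul_one] at h3
    exact h3
  · obtain ⟨s, hs⟩ : ∃ s, δ = s + 1 := ⟨δ - 1, by omega⟩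
    have hs1 : 1 ≤ s := by omega
    set b := finrank ℚ (W x s) with hb
    have h2 : δ ^ n ≤ b := by
      have h3 : Submodule.span ℚ (Set.range (fun k : Fin n → Fin δ => ∏ j, x j ^ (k j : ℕ))) ≤
          W x s := by
        refine Submodule.span_mono ?_
        rintro z ⟨k, rfl⟩
        exact ⟨fun j => (k j : ℕ), fun j => Nat.le_of_lt_succ (by
          show (k j : ℕ) < s + 1
          rw [← hs]
          exact (k j).2), rfl⟩
      have h4 := Submodule.finrank_mono h3
      rw [finrank_span_eq_card hl] at h4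
      simpa using h4
    have hbD : b ≤ finrank ℚ F := Submodule.finrank_le _
    have hδn : 0 < δ ^ n := pow_pos (by omega) _
    have hb0 : 0 < b := by omega
    have hk1 : 1 ≤ 2 * finrank ℚ F / b := by
      rw [Nat.one_le_div_iff hb0]
      omega
    have hk2 : 2 * finrank ℚ F ≤ (2 * finrank ℚ F / b + 1) * b := by
      have := Nat.lt_div_mul_add (a := 2 * finrank ℚ F) hb0
      nlinarith
    refine ⟨2 * finrank ℚ F / b * s, ?_, top_of_growth hO hx hs1 hk1 hk2⟩
    have h5 : s * δ ^ (n - 1) ≤ b := by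
      have h6 : δ ^ n = δ * δ ^ (n - 1) := by
        rw [← pow_succ']
        congr 1
        omega
      have h7 : s * δ ^ (n - 1) ≤ δ * δ ^ (n - 1) := Nat.mul_le_mul_right _ (by omega)
      omega
    calc 2 * finrank ℚ F / b * s * δ ^ (n - 1) = 2 * finrank ℚ F / b * (s * δ ^ (n - 1)) := by ring
      _ ≤ 2 * finrank ℚ F / b * b := Nat.mul_le_mul_left _ h5
      _ ≤ 2 * finrank ℚ F := Nat.div_mul_le_self _ _

end

end Pool.Agent.Y642.ND
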