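import Mathlib
import Pool.Agent.Y642.ND.Non

/-!
# The lower bound for the height
-/

set_option autoImplicit false

open Finset Polynomial Module ValuativeRel Pool.Agent.Y642.LZ

universe u v

namespace Pool.Agent.Y642.ND

lemma finrank_le_prod {F : Type} [Field F] [NumberField F] {n : ℕ} {x : Fin n → F}
    {M : Fin n → ℕ}
    (hM : Submodule.span ℚ {z : F | ∃ k : Fin n → ℕ, (∀ j, k j ≤ M j) ∧ z = ∏ j, x j ^ k j} = ⊤) :
    finrank ℚ F ≤ ∏ j, (M j + 1) := by
  classical
  let b : ((j : Fin n) → Fin (M j + 1)) → F := fun k => ∏ j, x j ^ (k j : ℕ)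
  have h1 : {z : F | ∃ k : Fin n → ℕ, (∀ j, k j ≤ M j) ∧ z = ∏ j, x j ^ k j} = Set.range b := by
    ext z
    constructor
    · rintro ⟨k, hk, rfl⟩
      exact ⟨fun j => ⟨k j, Nat.lt_succ_of_le (hk j)⟩, rfl⟩
    · rintro ⟨k, rfl⟩
      exact ⟨fun j => (k j : ℕ), fun j => Nat.le_of_lt_succ (k j).2, rfl⟩
  rw [h1] at hM
  have h2 := finrank_range_le_card (R := ℚ) b
  rw [Set.finrank, hM, finrank_top] at h2
  simpa using h2

lemma card_le_finrank {F : Type} [Field F] [NumberField F] {K : Type u} [Field K] [CharZero K]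
    (T : Finset (F →+* K)) : T.card ≤ finrank ℚ F := by
  classical
  have hchar : CharZero (AlgebraicClosure K) :=
    charZero_of_injective_algebraMap (algebraMap K (AlgebraicClosure K)).injective
  have h1 : (T.image fun τ => (algebraMap K (AlgebraicClosure K)).comp τ).card = T.card := by
    refine Finset.card_image_of_injective _ ?_
    intro τ τ' h
    ext y
    exact (algebraMap K (AlgebraicClosure K)).injective (RingHom.congr_fun h y)
  rw [← h1, ← NumberField.Embeddings.card F (AlgebraicClosure K)]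
  exact Finset.card_le_univ _

lemma root_le {n : ℕ} (hn : 1 ≤ n) {y z : ℝ} (hy : 0 ≤ y) (hyz : y ^ n ≤ z) :
    y ≤ z ^ (1 / (n : ℝ)) := by
  have hn0 : (0 : ℝ) < n := by exact_mod_cast hn
  have h1 := Real.rpow_le_rpow (by positivity) hyz (by positivity : 0 ≤ 1 / (n : ℝ))
  rwa [← Real.rpow_natCast y n, ← Real.rpow_mul hy, mul_one_div_cancel hn0.ne',
    Real.rpow_one] at h1

/-- the gain from at least half of `R` points -/
lemma gain_ge {n q : ℕ} (hn : 1 ≤ n) (hq : 2 ≤ q) {R r : ℝ}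
    (hR : 2 * (4 * (n : ℝ) * q + 8) ^ n ≤ R) (hr : R / 2 ≤ r) :
    R ^ (1 + 1 / (n : ℝ)) / 16 ≤ gain n q r := by
  have hnR : (1 : ℝ) ≤ n := by exact_mod_cast hn
  have hn0 : (0 : ℝ) < n := by linarith
  have hq2 : (2 : ℝ) ≤ q := by exact_mod_cast hq
  have hbig : (8 : ℝ) ≤ 4 * (n : ℝ) * q + 8 := by nlinarith
  have hpow1 : (1 : ℝ) ≤ (4 * (n : ℝ) * q + 8) ^ n := one_le_pow₀ (by linarith)
  have hR0 : 0 < R := by linarith
  have hr0 : 0 < r := by linarith
  set a : ℝ := 1 + 1 / (n : ℝ) with ha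
  have ha2 : a ≤ 2 := by
    rw [ha]
    have : 1 / (n : ℝ) ≤ 1 := by rw [div_le_one hn0]; exact hnR
    linarith
  have ha0 : 0 ≤ a := by rw [ha]; positivity
  have h3 : 4 * (n : ℝ) * q + 8 ≤ r ^ (1 / (n : ℝ)) :=
    root_le hn (by linarith) (by linarith)
  have hra : r ^ a = r * r ^ (1 / (n : ℝ)) := by
    rw [ha, Real.rpow_add hr0, Real.rpow_one]
  have h4 : r ^ a / 4 ≤ gain n q r := by
    unfold gain
    have h5 : (1 / 2 : ℝ) ≤ (n : ℝ) / (n + 1) := by
      rw [div_le_div_iff₀ (by norm_num) (by linarith)]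
      linarith
    have h6 : 0 ≤ r ^ a := Real.rpow_nonneg hr0.le _
    have h7 : ((n : ℝ) * ((q : ℝ) - 1) + 2) * r ≤ r ^ a / 4 := by
      rw [hra]
      nlinarith
    have h8 : 1 / 2 * r ^ a ≤ (n : ℝ) / (n + 1) * r ^ a := mul_le_mul_of_nonneg_right h5 h6
    rw [← ha]
    linarith
  have h5 : R ^ a / 4 ≤ r ^ a := by
    have h6 : (R / 2) ^ a ≤ r ^ a := Real.rpow_le_rpow (by linarith) hr ha0
    rw [Real.div_rpow hR0.le (by norm_num)] at h6
    have h7 : (2 : ℝ) ^ a ≤ 4 := by
      have := Real.rpow_le_rpow_of_exponent_le (by norm_num : (1 : ℝ) ≤ 2) ha2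
      norm_num at this
      exact this
    have h8 : R ^ a / 4 ≤ R ^ a / 2 ^ a :=
      div_le_div_of_nonneg_left (Real.rpow_nonneg hR0.le _) (by positivity) h7
    exact h8.trans h6
  linarith

/-- the weighted sum of the powers of the numbers of embeddings -/
noncomputable def locSum (n : ℕ) {ι : Type v} (s : Finset ι) (P : ι → Place.{u}) (R : ι → ℕ) :
    ℝ :=
  ∑ i ∈ s, Real.log (P i).p / ((P i).e * (P i).q) * (R i : ℝ) ^ (1 + 1 / (n : ℝ))

theorem lower (hEMB0 : S_EMB.{0}) (hEMB : S_EMB.{u}) (hDEG : S_DEG) (hBAS : S_BAS.{u})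
    (hNEW : S_NEW.{u}) (hINT : S_INT.{u})
    (hDET : S_DET.{u}) (hCNT : S_CNT) (hARC : S_ARC) {F : Type} [Field F] [NumberField F]
    {n : ℕ} (hn : 1 ≤ n)
    {x : Fin n → F} {f : Fin n → ℤ[X]} (hf : ∀ j, Irreducible (f j))
    (hx : ∀ j, aeval (x j) (f j) = 0) {M : Fin n → ℕ}
    (hM : Submodule.span ℚ {z : F | ∃ k : Fin n → ℕ, (∀ j, k j ≤ M j) ∧ z = ∏ j, x j ^ k j} = ⊤)
    {ι : Type v} (s : Finset ι) (P : ι → Place.{u}) (hinj : Set.InjOn (fun i => (P i).p) s)
    (T : (i : ι) → Finset (F →+* (P i).K)) {B : ℝ} (hB : ∀ j, (M j : ℝ) ≤ B)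
    (hR : ∀ i ∈ s, 2 * (4 * (n : ℝ) * (P i).q + 8) ^ n ≤ (T i).card)
    (hD : 16 * ((finrank ℚ F : ℝ) * Real.log (finrank ℚ F)) ≤
      locSum n s P fun i => (T i).card) :
    locSum n s P (fun i => (T i).card) ≤ 36 * ((finrank ℚ F : ℝ) * B * ∑ j, wh (f j)) := by
  classical
  have hnR : (1 : ℝ) ≤ n := by exact_mod_cast hn
  have hn0 : (0 : ℝ) < n := by linarith
  set D : ℝ := (finrank ℚ F : ℝ) with hDdef
  set a : ℝ := 1 + 1 / (n : ℝ) with ha
  have hwh : ∀ j, 0 ≤ wh (f j) := fun j => wh_nonneg (hf j).ne_zero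
  have hS0 : 0 ≤ ∑ j, wh (f j) := Finset.sum_nonneg fun j _ => hwh j
  set S : ℝ := ∑ j, wh (f j) with hS
  have hD0 : 0 < D := by
    rw [hDdef]
    exact_mod_cast (finrank_pos : 0 < finrank ℚ F)
  have hB0 : 0 ≤ B := (Nat.cast_nonneg _).trans (hB ⟨0, hn⟩)
  rcases s.eq_empty_or_nonempty with rfl | ⟨i0, hi0⟩
  · have h0 : locSum n (∅ : Finset ι) P (fun i => (T i).card) = 0 := by simp [locSum]
    rw [h0]
    positivity
  have hq2' : ∀ i, 2 ≤ (P i).q := fun i => by
    have := (P i).toLoc.two_le_q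
    rwa [Place.toLoc_q] at this
  have hq2 : ∀ i, (2 : ℝ) ≤ (P i).q := fun i => by exact_mod_cast hq2' i
  have he1 : ∀ i, (1 : ℝ) ≤ (P i).e := fun i => by exact_mod_cast (P i).he
  have hlogp : ∀ i, 0 < Real.log (P i).p := fun i =>
    Real.log_pos (by exact_mod_cast (P i).hp.one_lt)
  have hR2 : ∀ i ∈ s, (2 : ℝ) ≤ (T i).card := by
    intro i hi
    have h1 := hR i hi
    have h2 : (1 : ℝ) ≤ (4 * (n : ℝ) * (P i).q + 8) ^ n := by
      refine one_le_pow₀ ?_
      have := hq2 i
      nlinarith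
    linarith
  have hRD : ∀ i, ((T i).card : ℝ) ≤ D := fun i => by
    rw [hDdef]
    exact_mod_cast card_le_finrank (T i)
  -- the size of `B`
  have hDM : finrank ℚ F ≤ ∏ j, (M j + 1) := finrank_le_prod hM
  have hB1 : 1 ≤ B := by
    by_contra hcon
    push Not at hcon
    have h1 : ∀ j, M j = 0 := by
      intro j
      have h2 : (M j : ℝ) < 1 := lt_of_le_of_lt (hB j) hcon
      have h3 : M j < 1 := by exact_mod_cast h2
      omega
    simp only [h1, zero_add, Finset.prod_const_one] at hDM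
    have h2 : D ≤ 1 := by rw [hDdef]; exact_mod_cast hDM
    have h3 := hR2 i0 hi0
    have h4 := hRD i0
    linarith
  have hDB : D ≤ (2 * B) ^ n := by
    have h1 : D ≤ ∏ j, ((M j : ℝ) + 1) := by
      rw [hDdef]
      exact_mod_cast hDM
    refine h1.trans ?_
    have h2 : ∏ j : Fin n, ((M j : ℝ) + 1) ≤ ∏ _j : Fin n, (2 * B) := by
      refine Finset.prod_le_prod (fun j _ => by positivity) fun j _ => ?_
      have := hB j
      linarith
    simpa using h2
  have hBR : ∀ i ∈ s, ((T i).card : ℝ) ^ (1 / (n : ℝ)) ≤ 2 * B := by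
    intro i hi
    have h0 := hR2 i hi
    have h1 : ((T i).card : ℝ) ^ (1 / (n : ℝ)) ≤ ((2 * B) ^ n) ^ (1 / (n : ℝ)) :=
      Real.rpow_le_rpow (by linarith) ((hRD i).trans hDB) (by positivity)
    rwa [← Real.rpow_natCast (2 * B) n, ← Real.rpow_mul (by linarith),
      mul_one_div_cancel hn0.ne', Real.rpow_one] at h1
  -- the two kinds of embeddings
  let T1 : (i : ι) → Finset (F →+* (P i).K) := fun i =>
    (T i).filter (fun τ => ∀ j, τ (x j) ∈ 𝒪[(P i).K])
  let T2 : (i : ι) → Finset (F →+* (P i).K) := fun i =>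
    (T i).filter (fun τ => ¬ ∀ j, τ (x j) ∈ 𝒪[(P i).K])
  have hsum : ∀ i, ((T1 i).card : ℝ) + (T2 i).card = (T i).card := by
    intro i
    exact_mod_cast Finset.card_filter_add_card_filter_not _
  set sA := s.filter (fun i => ((T i).card : ℝ) / 2 ≤ (T1 i).card) with hsA
  set sB := s.filter (fun i => ¬ ((T i).card : ℝ) / 2 ≤ (T1 i).card) with hsB
  set L : ι → ℝ := fun i => Real.log (P i).p / ((P i).e * (P i).q) *
    ((T i).card : ℝ) ^ a with hL
  have hLsum : locSum n s P (fun i => (T i).card) = ∑ i ∈ sA, L i + ∑ i ∈ sB, L i := by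
    rw [hsA, hsB, Finset.sum_filter_add_sum_filter_not]
    rfl
  -- many integral embeddings
  have hA : ∑ i ∈ sA, L i ≤ 8 * (D * Real.log D + 2 * D * (B * S)) := by
    have h1 := main_ineq hEMB0 hEMB hDEG hBAS hNEW hINT hDET hCNT hARC hn hf hx hM
      sA P (fun i hi j hj h => hinj (Finset.mem_filter.mp hi).1 (Finset.mem_filter.mp hj).1 h) T1
      (fun i _ τ hτ j => (Finset.mem_filter.mp hτ).2 j)
    have h2 : ∑ j, (M j : ℝ) * wh (f j) ≤ B * S := by
      rw [hS, Finset.mul_sum]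
      exact Finset.sum_le_sum fun j _ => mul_le_mul_of_nonneg_right (hB j) (hwh j)
    have h3 : ∑ i ∈ sA, L i / 8 ≤ ∑ i ∈ sA, 2 * Real.log (P i).p / ((P i).e * (P i).q) *
        gain n (P i).q (T1 i).card := by
      refine Finset.sum_le_sum fun i hi => ?_
      obtain ⟨his, hic⟩ := Finset.mem_filter.mp hi
      have h4 := gain_ge hn (hq2' i) (hR i his) hic
      have h5 := hq2 i
      have h6 := he1 i
      have h7 := hlogp i
      have h8 : L i / 8 = 2 * Real.log (P i).p / ((P i).e * (P i).q) *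
          (((T i).card : ℝ) ^ a / 16) := by
        rw [hL]
        field_simp
        ring
      rw [h8]
      exact mul_le_mul_of_nonneg_left h4 (by positivity)
    rw [← Finset.sum_div] at h3
    have h4 : 2 * D * ∑ j, (M j : ℝ) * wh (f j) ≤ 2 * D * (B * S) :=
      mul_le_mul_of_nonneg_left h2 (by positivity)
    linarith
  -- many embeddings which are not integral
  have hBB : ∑ i ∈ sB, L i ≤ 2 * (D * B * S) := by
    choose m hm using fun j => hDEG F (x j) (f j) (hf j) (hx j)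
    have h2 : ∑ i ∈ sB, ((T2 i).card : ℝ) * (Real.log (P i).p / (P i).e) ≤ D * S := by
      have h3 : ∑ i ∈ sB, ((T2 i).card : ℝ) * (Real.log (P i).p / (P i).e) ≤
          ∑ i ∈ sB, ∑ j, (((T i).filter fun τ => τ (x j) ∉ 𝒪[(P i).K]).card : ℝ) *
            (Real.log (P i).p / (P i).e) := by
        refine Finset.sum_le_sum fun i _ => ?_
        have h6 := he1 i
        have h7 := hlogp i
        rw [← Finset.sum_mul]
        refine mul_le_mul_of_nonneg_right ?_ (by positivity)
        have h2 : T2 i ⊆ Finset.univ.biUnion fun j : Fin n =>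
            (T i).filter fun τ => τ (x j) ∉ 𝒪[(P i).K] := by
          intro τ hτ
          obtain ⟨hτ1, hτ2⟩ := Finset.mem_filter.mp hτ
          push Not at hτ2
          obtain ⟨j, hj⟩ := hτ2
          exact Finset.mem_biUnion.mpr ⟨j, Finset.mem_univ j, Finset.mem_filter.mpr ⟨hτ1, hj⟩⟩
        have h3 := (Finset.card_le_card h2).trans Finset.card_biUnion_le
        exact_mod_cast h3
      refine h3.trans ?_
      rw [Finset.sum_comm, hS, Finset.mul_sum]
      refine Finset.sum_le_sum fun j _ => ?_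
      exact nonint hEMB0 hEMB hINT (hf j) (hx j) (hm j) sB P
        (fun i hi j hj h => hinj (Finset.mem_filter.mp hi).1 (Finset.mem_filter.mp hj).1 h) _
        fun i _ τ hτ => (Finset.mem_filter.mp hτ).2
    have h3 : ∑ i ∈ sB, L i ≤ ∑ i ∈ sB, 2 * B * (((T2 i).card : ℝ) *
        (Real.log (P i).p / (P i).e)) := by
      refine Finset.sum_le_sum fun i hi => ?_
      obtain ⟨his, hic⟩ := Finset.mem_filter.mp hi
      have h5 := hq2 i
      have h6 := he1 i
      have h7 := hlogp i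
      have h8 : ((T i).card : ℝ) / 2 ≤ (T2 i).card := by
        have := hsum i
        push Not at hic
        linarith
      have h9 := hBR i his
      have h10 := hR2 i his
      have hRa : ((T i).card : ℝ) ^ a = ((T i).card : ℝ) * ((T i).card : ℝ) ^ (1 / (n : ℝ)) := by
        rw [ha, Real.rpow_add (by linarith), Real.rpow_one]
      have h11 : L i ≤ Real.log (P i).p / (2 * (P i).e) * ((T i).card : ℝ) ^ a := by
        rw [hL]
        apply mul_le_mul_of_nonneg_right _ (Real.rpow_nonneg (by linarith) _)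
        apply div_le_div_of_nonneg_left h7.le (by positivity)
        nlinarith
      refine h11.trans ?_
      rw [hRa]
      have h12 : ((T i).card : ℝ) * ((T i).card : ℝ) ^ (1 / (n : ℝ)) ≤
          (2 * (T2 i).card) * (2 * B) :=
        mul_le_mul (by linarith) h9 (Real.rpow_nonneg (by linarith) _) (by positivity)
      have h13 : Real.log (P i).p / (2 * (P i).e) * ((2 * (T2 i).card) * (2 * B)) =
          2 * B * (((T2 i).card : ℝ) * (Real.log (P i).p / (P i).e)) := by
        field_simp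
      rw [← h13]
      exact mul_le_mul_of_nonneg_left h12 (by positivity)
    rw [← Finset.mul_sum] at h3
    have h4 : 2 * B * ∑ i ∈ sB, ((T2 i).card : ℝ) * (Real.log (P i).p / (P i).e) ≤
        2 * B * (D * S) := mul_le_mul_of_nonneg_left h2 (by positivity)
    linarith
  rw [hLsum] at hD ⊢
  have h20 : D * (B * S) = D * B * S := by ring
  nlinarith

end Pool.Agent.Y642.ND
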