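import Mathlib
import Pool.Agent.Y642.ND.Low
import Pool.Agent.Y642.ND.Gro
import Pool.Agent.Y730.ND.Cnt
import Pool.Agent.Y730.ND.Int
import Pool.Agent.Y730.ND.New
import Pool.Agent.Y109.ND.Det
import Pool.Agent.Y756.ND.Bas
import Pool.Agent.Y412.ND.Emb
import Pool.Agent.Y810.ND.Arc

/-!
# The final form
-/

set_option autoImplicit false

open Finset Polynomial Module ValuativeRel Pool.Agent.Y642.LZ

universe u v

namespace Pool.Agent.Y642.ND

lemma linInd {F : Type} [Field F] [NumberField F] {n : ℕ} {x : Fin n → F} {δ : ℕ}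
    (hobs : ∀ G : MvPolynomial (Fin n) ℚ, G ≠ 0 → (∀ j, G.degreeOf j < δ) →
      MvPolynomial.aeval x G ≠ 0) :
    LinearIndependent ℚ (fun k : Fin n → Fin δ => ∏ j, x j ^ (k j : ℕ)) := by
  classical
  rw [Fintype.linearIndependent_iff]
  intro g hg
  let c : (Fin n → Fin δ) → (Fin n →₀ ℕ) := fun k => Finsupp.equivFunOnFinite.symm
    fun j => (k j : ℕ)
  have hc : Function.Injective c := by
    intro k k' h
    funext j
    have h1 := DFunLike.congr_fun h j
    exact Fin.ext (by simpa [c] using h1)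
  set G : MvPolynomial (Fin n) ℚ := ∑ k, MvPolynomial.monomial (c k) (g k) with hG
  have hcoeff : ∀ k, G.coeff (c k) = g k := by
    intro k
    rw [hG, MvPolynomial.coeff_sum, Finset.sum_eq_single k]
    · simp
    · intro k' _ hk'
      rw [MvPolynomial.coeff_monomial, if_neg]
      intro h
      exact hk' (hc h)
    · intro h
      exact absurd (Finset.mem_univ k) h
  have hev : MvPolynomial.aeval x G = 0 := by
    rw [hG, map_sum, ← hg]
    refine Finset.sum_congr rfl fun k _ => ?_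
    rw [MvPolynomial.aeval_monomial, Finsupp.prod_fintype _ _ (fun i => pow_zero _),
      Algebra.smul_def]
    rfl
  have hG0 : G = 0 := by
    by_contra hne
    refine hobs G hne (fun j => ?_) hev
    by_cases hδ : 0 < δ
    · rw [MvPolynomial.degreeOf_lt_iff hδ]
      intro m hm
      have h1 : m ∈ Finset.univ.image c := by
        by_contra hcon
        rw [MvPolynomial.mem_support_iff] at hm
        apply hm
        rw [hG, MvPolynomial.coeff_sum]
        refine Finset.sum_eq_zero fun k _ => ?_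
        rw [MvPolynomial.coeff_monomial, if_neg]
        intro h
        exact hcon (Finset.mem_image.mpr ⟨k, Finset.mem_univ k, h⟩)
      obtain ⟨k, _, rfl⟩ := Finset.mem_image.mp h1
      simpa [c] using (k j).2
    · exfalso
      apply hne
      rw [hG]
      refine Finset.sum_eq_zero fun k _ => ?_
      have := (k j).2
      omega
  intro k
  rw [← hcoeff k, hG0, MvPolynomial.coeff_zero]

theorem top (hO : S_OLS) {n : ℕ} (hn : 1 ≤ n) {F : Type} [Field F] [NumberField F]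
    {x : Fin n → F}
    (hgen : Algebra.adjoin ℚ (Set.range x) = ⊤)
    {f : Fin n → ℤ[X]} (hf : ∀ j, Irreducible (f j)) (hx : ∀ j, aeval (x j) (f j) = 0)
    {δ : ℕ} (hδ : 1 ≤ δ)
    (hobs : ∀ G : MvPolynomial (Fin n) ℚ, G ≠ 0 → (∀ j, G.degreeOf j < δ) →
      MvPolynomial.aeval x G ≠ 0)
    {ι : Type v} (s : Finset ι) (P : ι → Place.{u}) (hinj : Set.InjOn (fun i => (P i).p) s)
    (T : (i : ι) → Finset (F →+* (P i).K)) :
    ((∀ i ∈ s, ∀ τ ∈ T i, ∀ j, τ (x j) ∈ 𝒪[(P i).K]) →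
      ∑ i ∈ s, 2 * Real.log (P i).p / ((P i).e * (P i).q) * gain n (P i).q (T i).card ≤
        (finrank ℚ F : ℝ) * Real.log (finrank ℚ F) +
        4 * ((finrank ℚ F : ℝ) ^ 2 / (δ : ℝ) ^ (n - 1)) * ∑ j, wh (f j)) ∧
    ((∀ i ∈ s, 2 * (4 * (n : ℝ) * (P i).q + 8) ^ n ≤ (T i).card) →
      16 * ((finrank ℚ F : ℝ) * Real.log (finrank ℚ F)) ≤ locSum n s P (fun i => (T i).card) →
      locSum n s P (fun i => (T i).card) ≤
        72 * ((finrank ℚ F : ℝ) ^ 2 / (δ : ℝ) ^ (n - 1)) * ∑ j, wh (f j)) := by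
  have hδ0 : (0 : ℝ) < (δ : ℝ) ^ (n - 1) := by
    have : (0 : ℝ) < δ := by exact_mod_cast hδ
    positivity
  have hD0 : (0 : ℝ) < finrank ℚ F := by exact_mod_cast (finrank_pos : 0 < finrank ℚ F)
  obtain ⟨M, hM1, hM2⟩ := span hO hn hgen hδ (linInd hobs)
  have hMB : (M : ℝ) ≤ 2 * (finrank ℚ F : ℝ) / (δ : ℝ) ^ (n - 1) := by
    rw [le_div_iff₀ hδ0]
    exact_mod_cast hM1
  have hwh : ∀ j, 0 ≤ wh (f j) := fun j => wh_nonneg (hf j).ne_zero
  have hS0 : 0 ≤ ∑ j, wh (f j) := Finset.sum_nonneg fun j _ => hwh j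
  constructor
  · intro hT
    have h1 := main_ineq Pool.Agent.Y412.ND.t Pool.Agent.Y412.ND.t Pool.Agent.Y756.ND.deg
      Pool.Agent.Y756.ND.t Pool.Agent.Y730.ND.New.t Pool.Agent.Y730.ND.Int.t
      Pool.Agent.Y109.ND.t Pool.Agent.Y730.ND.Cnt.t Pool.Agent.Y810.ND.t
      hn hf hx (M := fun _ => M) hM2 s P hinj T hT
    rw [← Finset.mul_sum] at h1
    have h2 : 2 * (finrank ℚ F : ℝ) * ((M : ℝ) * ∑ j, wh (f j)) ≤
        4 * ((finrank ℚ F : ℝ) ^ 2 / (δ : ℝ) ^ (n - 1)) * ∑ j, wh (f j) := by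
      have h3 : 4 * ((finrank ℚ F : ℝ) ^ 2 / (δ : ℝ) ^ (n - 1)) * ∑ j, wh (f j) =
          2 * (finrank ℚ F : ℝ) * ((2 * (finrank ℚ F : ℝ) / (δ : ℝ) ^ (n - 1)) *
            ∑ j, wh (f j)) := by ring
      rw [h3]
      gcongr
    linarith
  · intro hR hD
    have h1 := lower Pool.Agent.Y412.ND.t Pool.Agent.Y412.ND.t Pool.Agent.Y756.ND.deg
      Pool.Agent.Y756.ND.t Pool.Agent.Y730.ND.New.t Pool.Agent.Y730.ND.Int.t
      Pool.Agent.Y109.ND.t Pool.Agent.Y730.ND.Cnt.t Pool.Agent.Y810.ND.t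
      hn hf hx (M := fun _ => M) hM2 s P hinj T (B := 2 * (finrank ℚ F : ℝ) / (δ : ℝ) ^ (n - 1))
      (fun _ => hMB) hR hD
    refine h1.trans (le_of_eq ?_)
    ring

end Pool.Agent.Y642.ND
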