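import Mathlib
import Pool.Agent.Y642.ND.Adel
import Pool.Agent.Y642.ND.Top
import Pool.Agent.Y220.ND.Ols
import Pool.Agent.Y657.ND.Rdet
import Pool.Agent.Y983.ND.Cell

/-!
# Conjugates over local fields and real conjugates together: the final form
-/

set_option autoImplicit false

open Finset Polynomial Module NumberField ValuativeRel Pool.Agent.Y642.LZ

universe u v

namespace Pool.Agent.Y642.ND

theorem adel2 {F : Type} [Field F] [NumberField F] {n : ℕ} (hn : 1 ≤ n)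
    {x : Fin n → F} {f : Fin n → ℤ[X]} (hf : ∀ j, Irreducible (f j))
    (hx : ∀ j, aeval (x j) (f j) = 0) {M : ℕ}
    (hM : Submodule.span ℚ {z : F | ∃ k : Fin n → ℕ, (∀ j, k j ≤ M) ∧ z = ∏ j, x j ^ k j} = ⊤)
    {ι : Type v} (s : Finset ι) (P : ι → Place.{u}) (hinj : Set.InjOn (fun i => (P i).p) s)
    (T : (i : ι) → Finset (F →+* (P i).K))
    (hT : ∀ i ∈ s, ∀ τ ∈ T i, ∀ j, τ (x j) ∈ 𝒪[(P i).K])
    {R0 : ℕ} (hR0 : R0 ≤ InfinitePlace.nrRealPlaces F) {B : ℝ} (hMB : (M : ℝ) ≤ B)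
    (hM2D : (M : ℝ) ≤ 2 * (finrank ℚ F : ℝ)) :
    ∑ i ∈ s, 2 * Real.log (P i).p / ((P i).e * (P i).q) * gain n (P i).q (T i).card +
      1.38 * ((R0 : ℝ) ^ (1 + 1 / (n : ℝ)) / (32 * Real.log (2 * finrank ℚ F + 2))) ≤
      (finrank ℚ F : ℝ) * Real.log (finrank ℚ F) + 7 * n * R0 +
        2 * (finrank ℚ F : ℝ) * (B * ∑ j, wh (f j)) := by
  have hn1 : (1 : ℝ) ≤ n := by exact_mod_cast hn
  obtain ⟨N, hN1, hN, hmain⟩ := adel_ineq Pool.Agent.Y412.ND.t Pool.Agent.Y412.ND.t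
    Pool.Agent.Y756.ND.deg Pool.Agent.Y756.ND.t Pool.Agent.Y730.ND.New.t
    Pool.Agent.Y730.ND.Int.t Pool.Agent.Y109.ND.t Pool.Agent.Y730.ND.Cnt.t
    Pool.Agent.Y983.ND.t Pool.Agent.Y657.ND.t hn hf hx hM s P hinj T hT hR0
  have hwh : ∀ j, 0 ≤ wh (f j) := fun j => wh_nonneg (hf j).ne_zero
  have hS0 : 0 ≤ ∑ j, wh (f j) := Finset.sum_nonneg fun j _ => hwh j
  set S := ∑ j, wh (f j) with hS
  set G := ∑ i ∈ s, 2 * Real.log (P i).p / ((P i).e * (P i).q) * gain n (P i).q (T i).card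
    with hG
  set D : ℝ := (finrank ℚ F : ℝ) with hD
  set R : ℝ := (R0 : ℝ) with hR
  set a : ℝ := 1 + 1 / (n : ℝ) with ha
  have hD1 : 1 ≤ D := by
    rw [hD]
    exact_mod_cast (finrank_pos : 0 < finrank ℚ F)
  have hRn : 0 ≤ R := Nat.cast_nonneg _
  have hlogM : Real.log ((M : ℝ) + 2) ≤ Real.log (2 * D + 2) :=
    Real.log_le_log (by positivity) (by linarith)
  have hlogpos : 0 < Real.log (2 * D + 2) := Real.log_pos (by linarith)
  have hN0 : (0 : ℝ) < N := by exact_mod_cast hN1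
  have hNle : (N : ℝ) ≤ 16 * Real.log (2 * D + 2) := by linarith
  have hl2 : (0.69 : ℝ) < Real.log 2 := by linarith [Real.log_two_gt_d9]
  have hl2' : Real.log 2 < 0.7 := by linarith [Real.log_two_lt_d9]
  have hl6 : Real.log 6 < 2.1 := by
    have h1 : Real.log 6 ≤ Real.log (2 ^ 3) := Real.log_le_log (by norm_num) (by norm_num)
    rw [Real.log_pow] at h1
    push_cast at h1
    linarith
  have hX0 : 0 ≤ R ^ a := Real.rpow_nonneg hRn _
  have h1 : (n : ℝ) / (n + 1) * R ^ a / N ≥ R ^ a / (32 * Real.log (2 * D + 2)) := by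
    have h2 : (1 / 2 : ℝ) ≤ (n : ℝ) / (n + 1) := by
      rw [div_le_div_iff₀ (by norm_num) (by linarith)]
      linarith
    have h3 : R ^ a / (16 * Real.log (2 * D + 2)) ≤ R ^ a / N :=
      div_le_div_of_nonneg_left hX0 hN0 hNle
    have h4 : (1 / 2 : ℝ) * (R ^ a / (16 * Real.log (2 * D + 2))) ≤
        (n : ℝ) / (n + 1) * (R ^ a / N) :=
      mul_le_mul h2 h3 (by positivity) (by positivity)
    have h5 : (1 / 2 : ℝ) * (R ^ a / (16 * Real.log (2 * D + 2))) =
        R ^ a / (32 * Real.log (2 * D + 2)) := by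
      field_simp
      ring
    rw [mul_div_assoc, ge_iff_le, ← h5]
    exact h4
  set Y := R ^ a / (32 * Real.log (2 * D + 2)) with hY
  have hY0 : 0 ≤ Y := by positivity
  have h2 : 2 * Real.log 2 * (Y - 2 * R) ≤
      2 * Real.log 2 * ((n : ℝ) / (n + 1) * R ^ a / N - 2 * R) :=
    mul_le_mul_of_nonneg_left (by linarith) (by positivity)
  have h3 : 2 * D * (M * S) ≤ 2 * D * (B * S) :=
    mul_le_mul_of_nonneg_left (mul_le_mul_of_nonneg_right hMB hS0) (by positivity)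
  have h4 : 4 * Real.log 2 * R + 2 * n * Real.log 6 * R ≤ 7 * n * R := by
    have h5 : 4 * Real.log 2 * R ≤ 2.8 * n * R := by
      have : 4 * Real.log 2 ≤ 2.8 * n := by linarith
      exact mul_le_mul_of_nonneg_right this hRn
    have h6 : 2 * n * Real.log 6 * R ≤ 4.2 * n * R := by
      have : 2 * n * Real.log 6 ≤ 4.2 * n := by nlinarith
      exact mul_le_mul_of_nonneg_right this hRn
    linarith
  have h5 : 1.38 * Y ≤ 2 * Real.log 2 * Y := mul_le_mul_of_nonneg_right (by linarith) hY0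
  nlinarith

theorem alower {F : Type} [Field F] [NumberField F] {n : ℕ} (hn : 1 ≤ n)
    {x : Fin n → F} {f : Fin n → ℤ[X]} (hf : ∀ j, Irreducible (f j))
    (hx : ∀ j, aeval (x j) (f j) = 0) {M : ℕ}
    (hM : Submodule.span ℚ {z : F | ∃ k : Fin n → ℕ, (∀ j, k j ≤ M) ∧ z = ∏ j, x j ^ k j} = ⊤)
    {ι : Type v} (s : Finset ι) (P : ι → Place.{u}) (hinj : Set.InjOn (fun i => (P i).p) s)
    (T : (i : ι) → Finset (F →+* (P i).K))
    {R0 : ℕ} (hR0 : R0 ≤ InfinitePlace.nrRealPlaces F) {B : ℝ} (hMB : (M : ℝ) ≤ B)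
    (hM2D : (M : ℝ) ≤ 2 * (finrank ℚ F : ℝ))
    (hR : ∀ i ∈ s, 2 * (4 * (n : ℝ) * (P i).q + 8) ^ n ≤ (T i).card) :
    locSum n s P (fun i => (T i).card) +
      (R0 : ℝ) ^ (1 + 1 / (n : ℝ)) / (3 * Real.log (2 * finrank ℚ F + 2)) ≤
      8 * ((finrank ℚ F : ℝ) * Real.log (finrank ℚ F) + 7 * n * R0) +
        18 * ((finrank ℚ F : ℝ) * B * ∑ j, wh (f j)) := by
  classical
  have hnR : (1 : ℝ) ≤ n := by exact_mod_cast hn
  have hn0 : (0 : ℝ) < n := by linarith
  -- the two kinds of embeddings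
  let T1 : (i : ι) → Finset (F →+* (P i).K) := fun i =>
    (T i).filter (fun τ => ∀ j, τ (x j) ∈ 𝒪[(P i).K])
  let T2 : (i : ι) → Finset (F →+* (P i).K) := fun i =>
    (T i).filter (fun τ => ¬ ∀ j, τ (x j) ∈ 𝒪[(P i).K])
  have hsum : ∀ i, ((T1 i).card : ℝ) + (T2 i).card = (T i).card := by
    intro i
    exact_mod_cast Finset.card_filter_add_card_filter_not _
  have h1 := adel2 hn hf hx hM
      (s.filter (fun i => ((T i).card : ℝ) / 2 ≤ (T1 i).card)) P
      (fun i hi j hj h => hinj (Finset.mem_filter.mp hi).1 (Finset.mem_filter.mp hj).1 h) T1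
      (fun i _ τ hτ j => (Finset.mem_filter.mp hτ).2 j) hR0 hMB hM2D
  set sA := s.filter (fun i => ((T i).card : ℝ) / 2 ≤ (T1 i).card) with hsA
  set sB := s.filter (fun i => ¬ ((T i).card : ℝ) / 2 ≤ (T1 i).card) with hsB
  have hwh : ∀ j, 0 ≤ wh (f j) := fun j => wh_nonneg (hf j).ne_zero
  have hS0 : 0 ≤ ∑ j, wh (f j) := Finset.sum_nonneg fun j _ => hwh j
  set S : ℝ := ∑ j, wh (f j) with hS
  set D : ℝ := (finrank ℚ F : ℝ) with hDdef
  set a : ℝ := 1 + 1 / (n : ℝ) with ha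
  have hD0 : 0 < D := by
    rw [hDdef]
    exact_mod_cast (finrank_pos : 0 < finrank ℚ F)
  have hB0 : 0 ≤ B := (Nat.cast_nonneg _).trans hMB
  have hq2' : ∀ i, 2 ≤ (P i).q := fun i => by
    have := (P i).toLoc.two_le_q
    rwa [Place.toLoc_q] at this
  have hq2 : ∀ i, (2 : ℝ) ≤ (P i).q := fun i => by exact_mod_cast hq2' i
  have he1 : ∀ i, (1 : ℝ) ≤ (P i).e := fun i => by exact_mod_cast (P i).he
  have hlogp : ∀ i, 0 < Real.log (P i).p := fun i =>
    Real.log_pos (by exact_mod_cast (P i).hp.one_lt)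
  have hR2 : ∀ i ∈ s, (2 : ℝ) ≤ (T i).card := by
    intro i hi
    have h1 := hR i hi
    have h2 : (1 : ℝ) ≤ (4 * (n : ℝ) * (P i).q + 8) ^ n := by
      refine one_le_pow₀ ?_
      have := hq2 i
      nlinarith
    linarith
  have hRD : ∀ i, ((T i).card : ℝ) ≤ D := fun i => by
    rw [hDdef]
    exact_mod_cast card_le_finrank (T i)
  set L : ι → ℝ := fun i => Real.log (P i).p / ((P i).e * (P i).q) *
    ((T i).card : ℝ) ^ a with hL
  have hLsum : locSum n s P (fun i => (T i).card) = ∑ i ∈ sA, L i + ∑ i ∈ sB, L i := by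
    rw [hsA, hsB, Finset.sum_filter_add_sum_filter_not]
    rfl
  -- many integral embeddings
  have h3 : ∑ i ∈ sA, L i / 8 ≤ ∑ i ∈ sA, 2 * Real.log (P i).p / ((P i).e * (P i).q) *
      gain n (P i).q (T1 i).card := by
    refine Finset.sum_le_sum fun i hi => ?_
    obtain ⟨his, hic⟩ := Finset.mem_filter.mp hi
    have h4 := gain_ge hn (hq2' i) (hR i his) hic
    have h5 := hq2 i
    have h6 := he1 i
    have h7 := hlogp i
    have h8 : L i / 8 = 2 * Real.log (P i).p / ((P i).e * (P i).q) *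
        (((T i).card : ℝ) ^ a / 16) := by
      rw [hL]
      field_simp
      ring
    rw [h8]
    exact mul_le_mul_of_nonneg_left h4 (by positivity)
  rw [← Finset.sum_div] at h3
  -- many embeddings which are not integral
  have hBB : ∑ i ∈ sB, L i ≤ 2 * (D * B * S) := by
    rcases s.eq_empty_or_nonempty with rfl | ⟨i0, hi0⟩
    · rw [hsB]
      simp only [Finset.filter_empty, Finset.sum_empty]
      positivity
    -- the size of `B`
    have hDM : finrank ℚ F ≤ ∏ _j : Fin n, (M + 1) := finrank_le_prod (M := fun _ => M) hM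
    have hB1 : 1 ≤ B := by
      by_contra hcon
      push Not at hcon
      have h1 : M = 0 := by
        have h2 : (M : ℝ) < 1 := lt_of_le_of_lt hMB hcon
        have h3 : M < 1 := by exact_mod_cast h2
        omega
      simp only [h1, zero_add, Finset.prod_const_one] at hDM
      have h2 : D ≤ 1 := by rw [hDdef]; exact_mod_cast hDM
      have h3 := hR2 i0 hi0
      have h4 := hRD i0
      linarith
    have hDB : D ≤ (2 * B) ^ n := by
      have h1 : D ≤ ∏ _j : Fin n, ((M : ℝ) + 1) := by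
        rw [hDdef]
        exact_mod_cast hDM
      refine h1.trans ?_
      have h2 : ∏ _j : Fin n, ((M : ℝ) + 1) ≤ ∏ _j : Fin n, (2 * B) := by
        refine Finset.prod_le_prod (fun j _ => by positivity) fun j _ => ?_
        linarith
      simpa using h2
    have hBR : ∀ i ∈ s, ((T i).card : ℝ) ^ (1 / (n : ℝ)) ≤ 2 * B := by
      intro i hi
      have h0 := hR2 i hi
      have h1 : ((T i).card : ℝ) ^ (1 / (n : ℝ)) ≤ ((2 * B) ^ n) ^ (1 / (n : ℝ)) :=
        Real.rpow_le_rpow (by linarith) ((hRD i).trans hDB) (by positivity)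
      rwa [← Real.rpow_natCast (2 * B) n, ← Real.rpow_mul (by linarith),
        mul_one_div_cancel hn0.ne', Real.rpow_one] at h1
    choose m hm using fun j => Pool.Agent.Y756.ND.deg F (x j) (f j) (hf j) (hx j)
    have h2 : ∑ i ∈ sB, ((T2 i).card : ℝ) * (Real.log (P i).p / (P i).e) ≤ D * S := by
      have h3 : ∑ i ∈ sB, ((T2 i).card : ℝ) * (Real.log (P i).p / (P i).e) ≤
          ∑ i ∈ sB, ∑ j, (((T i).filter fun τ => τ (x j) ∉ 𝒪[(P i).K]).card : ℝ) *
            (Real.log (P i).p / (P i).e) := by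
        refine Finset.sum_le_sum fun i _ => ?_
        have h6 := he1 i
        have h7 := hlogp i
        rw [← Finset.sum_mul]
        refine mul_le_mul_of_nonneg_right ?_ (by positivity)
        have h2 : T2 i ⊆ Finset.univ.biUnion fun j : Fin n =>
            (T i).filter fun τ => τ (x j) ∉ 𝒪[(P i).K] := by
          intro τ hτ
          obtain ⟨hτ1, hτ2⟩ := Finset.mem_filter.mp hτ
          push Not at hτ2
          obtain ⟨j, hj⟩ := hτ2
          exact Finset.mem_biUnion.mpr ⟨j, Finset.mem_univ j, Finset.mem_filter.mpr ⟨hτ1, hj⟩⟩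
        have h3 := (Finset.card_le_card h2).trans Finset.card_biUnion_le
        exact_mod_cast h3
      refine h3.trans ?_
      rw [Finset.sum_comm, hS, Finset.mul_sum]
      refine Finset.sum_le_sum fun j _ => ?_
      exact nonint Pool.Agent.Y412.ND.t Pool.Agent.Y412.ND.t Pool.Agent.Y730.ND.Int.t
        (hf j) (hx j) (hm j) sB P
        (fun i hi j hj h => hinj (Finset.mem_filter.mp hi).1 (Finset.mem_filter.mp hj).1 h) _
        fun i _ τ hτ => (Finset.mem_filter.mp hτ).2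
    have h3 : ∑ i ∈ sB, L i ≤ ∑ i ∈ sB, 2 * B * (((T2 i).card : ℝ) *
        (Real.log (P i).p / (P i).e)) := by
      refine Finset.sum_le_sum fun i hi => ?_
      obtain ⟨his, hic⟩ := Finset.mem_filter.mp hi
      have h5 := hq2 i
      have h6 := he1 i
      have h7 := hlogp i
      have h8 : ((T i).card : ℝ) / 2 ≤ (T2 i).card := by
        have := hsum i
        push Not at hic
        linarith
      have h9 := hBR i his
      have h10 := hR2 i his
      have hRa : ((T i).card : ℝ) ^ a = ((T i).card : ℝ) * ((T i).card : ℝ) ^ (1 / (n : ℝ)) := by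
        rw [ha, Real.rpow_add (by linarith), Real.rpow_one]
      have h11 : L i ≤ Real.log (P i).p / (2 * (P i).e) * ((T i).card : ℝ) ^ a := by
        rw [hL]
        apply mul_le_mul_of_nonneg_right _ (Real.rpow_nonneg (by linarith) _)
        apply div_le_div_of_nonneg_left h7.le (by positivity)
        nlinarith
      refine h11.trans ?_
      rw [hRa]
      have h12 : ((T i).card : ℝ) * ((T i).card : ℝ) ^ (1 / (n : ℝ)) ≤
          (2 * (T2 i).card) * (2 * B) :=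
        mul_le_mul (by linarith) h9 (Real.rpow_nonneg (by linarith) _) (by positivity)
      have h13 : Real.log (P i).p / (2 * (P i).e) * ((2 * (T2 i).card) * (2 * B)) =
          2 * B * (((T2 i).card : ℝ) * (Real.log (P i).p / (P i).e)) := by
        field_simp
      rw [← h13]
      exact mul_le_mul_of_nonneg_left h12 (by positivity)
    rw [← Finset.mul_sum] at h3
    have h4 : 2 * B * ∑ i ∈ sB, ((T2 i).card : ℝ) * (Real.log (P i).p / (P i).e) ≤
        2 * B * (D * S) := mul_le_mul_of_nonneg_left h2 (by positivity)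
    linarith
  rw [hLsum]
  have hD1 : 1 ≤ D := by
    rw [hDdef]
    exact_mod_cast (finrank_pos : 0 < finrank ℚ F)
  have hlogpos : 0 < Real.log (2 * D + 2) := Real.log_pos (by linarith)
  have hZ : (R0 : ℝ) ^ a / (3 * Real.log (2 * D + 2)) =
      32 / 3 * ((R0 : ℝ) ^ a / (32 * Real.log (2 * D + 2))) := by
    field_simp
  rw [hZ]
  have hY0 : 0 ≤ (R0 : ℝ) ^ a / (32 * Real.log (2 * D + 2)) := by positivity
  set Y := (R0 : ℝ) ^ a / (32 * Real.log (2 * D + 2)) with hY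
  have h20 : 2 * D * (B * S) = 2 * (D * B * S) := by ring
  rw [h20] at h1
  linarith

theorem atop {n : ℕ} (hn : 1 ≤ n) {F : Type} [Field F] [NumberField F]
    {x : Fin n → F}
    (hgen : Algebra.adjoin ℚ (Set.range x) = ⊤)
    {f : Fin n → ℤ[X]} (hf : ∀ j, Irreducible (f j)) (hx : ∀ j, aeval (x j) (f j) = 0)
    {δ : ℕ} (hδ : 1 ≤ δ)
    (hobs : ∀ G : MvPolynomial (Fin n) ℚ, G ≠ 0 → (∀ j, G.degreeOf j < δ) →
      MvPolynomial.aeval x G ≠ 0)
    {ι : Type v} (s : Finset ι) (P : ι → Place.{u}) (hinj : Set.InjOn (fun i => (P i).p) s)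
    (T : (i : ι) → Finset (F →+* (P i).K))
    {R0 : ℕ} (hR0 : R0 ≤ InfinitePlace.nrRealPlaces F) :
    ((∀ i ∈ s, ∀ τ ∈ T i, ∀ j, τ (x j) ∈ 𝒪[(P i).K]) →
      ∑ i ∈ s, 2 * Real.log (P i).p / ((P i).e * (P i).q) * gain n (P i).q (T i).card +
        (R0 : ℝ) ^ (1 + 1 / (n : ℝ)) / (24 * Real.log (2 * finrank ℚ F + 2)) ≤
        (finrank ℚ F : ℝ) * Real.log (finrank ℚ F) + 7 * n * R0 +
        4 * ((finrank ℚ F : ℝ) ^ 2 / (δ : ℝ) ^ (n - 1)) * ∑ j, wh (f j)) ∧
    ((∀ i ∈ s, 2 * (4 * (n : ℝ) * (P i).q + 8) ^ n ≤ (T i).card) →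
      16 * ((finrank ℚ F : ℝ) * Real.log (finrank ℚ F) + 7 * n * R0) ≤
        locSum n s P (fun i => (T i).card) +
          (R0 : ℝ) ^ (1 + 1 / (n : ℝ)) / (3 * Real.log (2 * finrank ℚ F + 2)) →
      locSum n s P (fun i => (T i).card) +
          (R0 : ℝ) ^ (1 + 1 / (n : ℝ)) / (3 * Real.log (2 * finrank ℚ F + 2)) ≤
        72 * ((finrank ℚ F : ℝ) ^ 2 / (δ : ℝ) ^ (n - 1)) * ∑ j, wh (f j)) := by
  have hδ0 : (0 : ℝ) < (δ : ℝ) ^ (n - 1) := by
    have : (0 : ℝ) < δ := by exact_mod_cast hδ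
    positivity
  have hD0 : (0 : ℝ) < finrank ℚ F := by exact_mod_cast (finrank_pos : 0 < finrank ℚ F)
  have hD1 : (1 : ℝ) ≤ finrank ℚ F := by exact_mod_cast (finrank_pos : 0 < finrank ℚ F)
  obtain ⟨M, hM1, hM2⟩ := span Pool.Agent.Y220.ND.t hn hgen hδ (linInd hobs)
  have hMB : (M : ℝ) ≤ 2 * (finrank ℚ F : ℝ) / (δ : ℝ) ^ (n - 1) := by
    rw [le_div_iff₀ hδ0]
    exact_mod_cast hM1
  have hδ1 : (1 : ℝ) ≤ (δ : ℝ) ^ (n - 1) := one_le_pow₀ (by exact_mod_cast hδ)
  have hM2D : (M : ℝ) ≤ 2 * (finrank ℚ F : ℝ) :=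
    hMB.trans (div_le_self (by positivity) hδ1)
  have h18 : (finrank ℚ F : ℝ) * (2 * (finrank ℚ F : ℝ) / (δ : ℝ) ^ (n - 1)) *
      ∑ j, wh (f j) = 2 * ((finrank ℚ F : ℝ) ^ 2 / (δ : ℝ) ^ (n - 1)) * ∑ j, wh (f j) := by
    ring
  constructor
  · intro hT
    have h1 := adel2 hn hf hx hM2 s P hinj T hT hR0 hMB hM2D
    have hlogpos : 0 < Real.log (2 * (finrank ℚ F : ℝ) + 2) := Real.log_pos (by linarith)
    have hZ : (R0 : ℝ) ^ (1 + 1 / (n : ℝ)) / (24 * Real.log (2 * (finrank ℚ F : ℝ) + 2)) =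
        4 / 3 * ((R0 : ℝ) ^ (1 + 1 / (n : ℝ)) / (32 * Real.log (2 * (finrank ℚ F : ℝ) + 2))) := by
      generalize (R0 : ℝ) ^ (1 + 1 / (n : ℝ)) = Z
      generalize Real.log (2 * (finrank ℚ F : ℝ) + 2) = Lg at hlogpos
      field_simp
      ring
    have hY0 : 0 ≤ (R0 : ℝ) ^ (1 + 1 / (n : ℝ)) /
        (32 * Real.log (2 * (finrank ℚ F : ℝ) + 2)) := by positivity
    have h19 : 2 * (finrank ℚ F : ℝ) * (2 * (finrank ℚ F : ℝ) / (δ : ℝ) ^ (n - 1) *
        ∑ j, wh (f j)) = 4 * ((finrank ℚ F : ℝ) ^ 2 / (δ : ℝ) ^ (n - 1)) * ∑ j, wh (f j) := by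
      ring
    rw [h19] at h1
    rw [hZ]
    linarith
  · intro hR hX
    have h1 := alower hn hf hx hM2 s P hinj T hR0 hMB hM2D hR
    rw [h18] at h1
    linarith

end Pool.Agent.Y642.ND
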