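import Mathlib
import Pool.Agent.Y642.ND.Top
import Pool.Agent.Y220.ND.Ols

/-!
# Monomials of a given shape
-/

set_option autoImplicit false

open Finset Polynomial Module ValuativeRel Pool.Agent.Y642.LZ
open scoped Pointwise

universe u v

namespace Pool.Agent.Y642.ND.Shp

section

variable {F : Type} [Field F] [NumberField F] {n : ℕ}

/-- the monomials with exponents at most `m j` -/
def mon (x : Fin n → F) (m : Fin n → ℕ) : Set F :=
  {z : F | ∃ k : Fin n → ℕ, (∀ j, k j ≤ m j) ∧ z = ∏ j, x j ^ k j}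

omit [NumberField F] in
lemma mon_mul (x : Fin n → F) (m s : Fin n → ℕ) : mon x m * mon x s = mon x (m + s) := by
  ext z
  constructor
  · rintro ⟨a, ⟨k, hk, rfl⟩, b, ⟨l, hl, rfl⟩, rfl⟩
    refine ⟨fun j => k j + l j, fun j => Nat.add_le_add (hk j) (hl j), ?_⟩
    simp only [pow_add, Finset.prod_mul_distrib]
  · rintro ⟨k, hk, rfl⟩
    refine ⟨∏ j, x j ^ min (k j) (m j), ⟨fun j => min (k j) (m j), fun j => min_le_right _ _, rfl⟩,
      ∏ j, x j ^ (k j - min (k j) (m j)), ⟨fun j => k j - min (k j) (m j), fun j => ?_, rfl⟩, ?_⟩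
    · have h1 := hk j
      rw [Pi.add_apply] at h1
      show k j - min (k j) (m j) ≤ s j
      omega
    · show (∏ j, x j ^ min (k j) (m j)) * ∏ j, x j ^ (k j - min (k j) (m j)) = _
      rw [← Finset.prod_mul_distrib]
      refine Finset.prod_congr rfl fun j _ => ?_
      rw [← pow_add]
      congr 1
      omega

/-- the span of the monomials with exponents at most `m j` -/
noncomputable def W (x : Fin n → F) (m : Fin n → ℕ) : Submodule ℚ F :=
  Submodule.span ℚ (mon x m)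

lemma W_mul (x : Fin n → F) (m s : Fin n → ℕ) : W x m * W x s = W x (m + s) := by
  unfold W
  rw [Submodule.span_mul_span, mon_mul]

lemma one_mem_W (x : Fin n → F) (m : Fin n → ℕ) : (1 : F) ∈ W x m :=
  Submodule.subset_span ⟨fun _ => 0, fun _ => Nat.zero_le _, by simp⟩

lemma W_mono (x : Fin n → F) {m s : Fin n → ℕ} (h : ∀ j, m j ≤ s j) : W x m ≤ W x s := by
  refine Submodule.span_mono ?_
  rintro z ⟨k, hk, rfl⟩
  exact ⟨k, fun j => (hk j).trans (h j), rfl⟩

lemma adjoin_W {x : Fin n → F} (hx : Algebra.adjoin ℚ (Set.range x) = ⊤) {s : Fin n → ℕ}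
    (hs : ∀ j, 1 ≤ s j) :
    Algebra.adjoin ℚ (W x s : Set F) = ⊤ := by
  classical
  rw [eq_top_iff, ← hx]
  refine Algebra.adjoin_mono ?_
  rintro z ⟨j, rfl⟩
  refine Submodule.subset_span ⟨fun i => if i = j then 1 else 0, fun i => ?_, ?_⟩
  · show (if i = j then 1 else 0) ≤ s i
    split_ifs
    · exact hs i
    · exact Nat.zero_le _
  · simp [Finset.prod_ite_eq', pow_ite]

lemma W_ne_bot (x : Fin n → F) (m : Fin n → ℕ) : W x m ≠ ⊥ := by
  intro h
  have h1 := one_mem_W x m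
  rw [h, Submodule.mem_bot] at h1
  exact one_ne_zero h1

lemma growth (hO : S_OLS) {x : Fin n → F} (hx : Algebra.adjoin ℚ (Set.range x) = ⊤)
    {s : Fin n → ℕ} (hs : ∀ j, 1 ≤ s j) (k : ℕ) :
    W x ((k + 1) • s) = ⊤ ∨
      (k + 2) * finrank ℚ (W x s) ≤ 2 * finrank ℚ (W x ((k + 1) • s)) := by
  induction k with
  | zero =>
    right
    have h0 : (0 + 1) • s = s := by simp
    rw [h0]
  | succ k ih =>
    by_cases htop : W x ((k + 1 + 1) • s) = ⊤
    · exact Or.inl htop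
    right
    have h1 : W x ((k + 1) • s) * W x s = W x ((k + 1 + 1) • s) := by
      rw [W_mul, succ_nsmul s (k + 1)]
    have h2 : W x ((k + 1) • s) ≠ ⊤ := by
      intro h
      apply htop
      rw [eq_top_iff, ← h]
      refine W_mono x fun j => ?_
      simp only [Pi.smul_apply, smul_eq_mul]
      exact Nat.mul_le_mul_right _ (by omega)
    have h3 := ih.resolve_left h2
    have h4 := hO ℚ F (W x ((k + 1) • s)) (W x s) (one_mem_W x s) (adjoin_W hx hs)
      (W_ne_bot x _) (by rw [h1]; exact htop)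
    rw [h1] at h4
    linarith

lemma top_of_growth (hO : S_OLS) {x : Fin n → F} (hx : Algebra.adjoin ℚ (Set.range x) = ⊤)
    {s : Fin n → ℕ} (hs : ∀ j, 1 ≤ s j) {k : ℕ} (hk : 1 ≤ k)
    (h : 2 * finrank ℚ F ≤ (k + 1) * finrank ℚ (W x s)) : W x (k • s) = ⊤ := by
  obtain ⟨k, rfl⟩ : ∃ k', k = k' + 1 := ⟨k - 1, by omega⟩
  rcases growth hO hx hs k with h1 | h1
  · exact h1
  · by_contra hne
    have h2 : finrank ℚ (W x ((k + 1) • s)) < finrank ℚ F :=
      Submodule.finrank_lt hne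
    have h3 : 2 * finrank ℚ F ≤ (k + 2) * finrank ℚ (W x s) := by
      have : k + 1 + 1 = k + 2 := rfl
      rwa [this] at h
    omega

lemma linInd {x : Fin n → F} {δ : Fin n → ℕ}
    (hobs : ∀ G : MvPolynomial (Fin n) ℚ, G ≠ 0 → (∀ j, G.degreeOf j < δ j) →
      MvPolynomial.aeval x G ≠ 0) :
    LinearIndependent ℚ (fun k : (j : Fin n) → Fin (δ j) => ∏ j, x j ^ (k j : ℕ)) := by
  classical
  rw [Fintype.linearIndependent_iff]
  intro g hg
  let c : ((j : Fin n) → Fin (δ j)) → (Fin n →₀ ℕ) := fun k => Finsupp.equivFunOnFinite.symm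
    fun j => (k j : ℕ)
  have hc : Function.Injective c := by
    intro k k' h
    funext j
    have h1 := DFunLike.congr_fun h j
    exact Fin.ext (by simpa [c] using h1)
  set G : MvPolynomial (Fin n) ℚ := ∑ k, MvPolynomial.monomial (c k) (g k) with hG
  have hcoeff : ∀ k, G.coeff (c k) = g k := by
    intro k
    rw [hG, MvPolynomial.coeff_sum, Finset.sum_eq_single k]
    · simp
    · intro k' _ hk'
      rw [MvPolynomial.coeff_monomial, if_neg]
      intro h
      exact hk' (hc h)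
    · intro h
      exact absurd (Finset.mem_univ k) h
  have hev : MvPolynomial.aeval x G = 0 := by
    rw [hG, map_sum, ← hg]
    refine Finset.sum_congr rfl fun k _ => ?_
    rw [MvPolynomial.aeval_monomial, Finsupp.prod_fintype _ _ (fun i => pow_zero _),
      Algebra.smul_def]
    rfl
  have hG0 : G = 0 := by
    by_contra hne
    refine hobs G hne (fun j => ?_) hev
    by_cases hδ : 0 < δ j
    · rw [MvPolynomial.degreeOf_lt_iff hδ]
      intro m hm
      have h1 : m ∈ Finset.univ.image c := by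
        by_contra hcon
        rw [MvPolynomial.mem_support_iff] at hm
        apply hm
        rw [hG, MvPolynomial.coeff_sum]
        refine Finset.sum_eq_zero fun k _ => ?_
        rw [MvPolynomial.coeff_monomial, if_neg]
        intro h
        exact hcon (Finset.mem_image.mpr ⟨k, Finset.mem_univ k, h⟩)
      obtain ⟨k, _, rfl⟩ := Finset.mem_image.mp h1
      simpa [c] using (k j).2
    · exfalso
      apply hne
      rw [hG]
      refine Finset.sum_eq_zero fun k _ => ?_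
      have := (k j).2
      omega
  intro k
  rw [← hcoeff k, hG0, MvPolynomial.coeff_zero]

/-- the monomials with exponents at most `M j` generate the field, with
`M j * ∏ δ ≤ 2 D δ j` -/
theorem span (hO : S_OLS) {x : Fin n → F}
    (hx : Algebra.adjoin ℚ (Set.range x) = ⊤) {δ : Fin n → ℕ} (hδ : ∀ j, 1 ≤ δ j)
    (hl : LinearIndependent ℚ (fun k : (j : Fin n) → Fin (δ j) => ∏ j, x j ^ (k j : ℕ))) :
    ∃ M : Fin n → ℕ, (∀ j, M j * ∏ i, δ i ≤ 2 * finrank ℚ F * δ j) ∧
      Submodule.span ℚ {z : F | ∃ k : Fin n → ℕ, (∀ j, k j ≤ M j) ∧ z = ∏ j, x j ^ k j} = ⊤ := by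
  classical
  have hD : 0 < finrank ℚ F := finrank_pos
  set s : Fin n → ℕ := fun j => max 1 (δ j - 1) with hs
  have hs1 : ∀ j, 1 ≤ s j := fun j => le_max_left _ _
  have hsδ : ∀ j, s j ≤ δ j := fun j => max_le (hδ j) (Nat.sub_le _ _)
  set b := finrank ℚ (W x s) with hb
  have h2 : ∏ i, δ i ≤ b := by
    have h3 : Submodule.span ℚ (Set.range (fun k : (j : Fin n) → Fin (δ j) =>
        ∏ j, x j ^ (k j : ℕ))) ≤ W x s := by
      refine Submodule.span_mono ?_
      rintro z ⟨k, rfl⟩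
      refine ⟨fun j => (k j : ℕ), fun j => ?_, rfl⟩
      have h4 := (k j).2
      have h5 : δ j - 1 ≤ s j := le_max_right _ _
      show (k j : ℕ) ≤ s j
      omega
    have h4 := Submodule.finrank_mono h3
    rw [finrank_span_eq_card hl] at h4
    simpa using h4
  have hbD : b ≤ finrank ℚ F := Submodule.finrank_le _
  have hδn : 0 < ∏ i, δ i := Finset.prod_pos fun j _ => hδ j
  have hb0 : 0 < b := by omega
  have hk1 : 1 ≤ 2 * finrank ℚ F / b := by
    rw [Nat.one_le_div_iff hb0]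
    omega
  have hk2 : 2 * finrank ℚ F ≤ (2 * finrank ℚ F / b + 1) * b := by
    have := Nat.lt_div_mul_add (a := 2 * finrank ℚ F) hb0
    nlinarith
  refine ⟨(2 * finrank ℚ F / b) • s, fun j => ?_, top_of_growth hO hx hs1 hk1 hk2⟩
  rw [Pi.smul_apply, smul_eq_mul]
  calc 2 * finrank ℚ F / b * s j * ∏ i, δ i ≤ 2 * finrank ℚ F / b * δ j * b :=
        Nat.mul_le_mul (Nat.mul_le_mul_left _ (hsδ j)) h2
    _ = 2 * finrank ℚ F / b * b * δ j := by ring
    _ ≤ 2 * finrank ℚ F * δ j := Nat.mul_le_mul_right _ (Nat.div_mul_le_self _ _)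

/-- the height of the `j`-th coordinate weighted by a shape without relations -/
theorem shape {n : ℕ} (hn : 1 ≤ n) {F : Type} [Field F] [NumberField F]
    {x : Fin n → F}
    (hgen : Algebra.adjoin ℚ (Set.range x) = ⊤)
    {f : Fin n → ℤ[X]} (hf : ∀ j, Irreducible (f j)) (hx : ∀ j, aeval (x j) (f j) = 0)
    {δ : Fin n → ℕ} (hδ : ∀ j, 1 ≤ δ j)
    (hobs : ∀ G : MvPolynomial (Fin n) ℚ, G ≠ 0 → (∀ j, G.degreeOf j < δ j) →
      MvPolynomial.aeval x G ≠ 0)
    {ι : Type v} (s : Finset ι) (P : ι → Place.{u}) (hinj : Set.InjOn (fun i => (P i).p) s)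
    (T : (i : ι) → Finset (F →+* (P i).K))
    (hT : ∀ i ∈ s, ∀ τ ∈ T i, ∀ j, τ (x j) ∈ 𝒪[(P i).K]) :
    ∑ i ∈ s, 2 * Real.log (P i).p / ((P i).e * (P i).q) * gain n (P i).q (T i).card ≤
      (finrank ℚ F : ℝ) * Real.log (finrank ℚ F) +
        4 * ((finrank ℚ F : ℝ) ^ 2 / ∏ i, (δ i : ℝ)) * ∑ j, δ j * wh (f j) := by
  have hδ0 : (0 : ℝ) < ∏ i, (δ i : ℝ) :=
    Finset.prod_pos fun j _ => by exact_mod_cast hδ j
  have hD0 : (0 : ℝ) < finrank ℚ F := by exact_mod_cast (finrank_pos : 0 < finrank ℚ F)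
  obtain ⟨M, hM1, hM2⟩ := span Pool.Agent.Y220.ND.t hgen hδ (linInd hobs)
  have hMB : ∀ j, (M j : ℝ) ≤ 2 * (finrank ℚ F : ℝ) * δ j / ∏ i, (δ i : ℝ) := by
    intro j
    rw [le_div_iff₀ hδ0]
    exact_mod_cast hM1 j
  have hwh : ∀ j, 0 ≤ wh (f j) := fun j => wh_nonneg (hf j).ne_zero
  have h1 := main_ineq Pool.Agent.Y412.ND.t Pool.Agent.Y412.ND.t Pool.Agent.Y756.ND.deg
    Pool.Agent.Y756.ND.t Pool.Agent.Y730.ND.New.t Pool.Agent.Y730.ND.Int.t
    Pool.Agent.Y109.ND.t Pool.Agent.Y730.ND.Cnt.t Pool.Agent.Y810.ND.t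
    hn hf hx (M := M) hM2 s P hinj T hT
  have h2 : 2 * (finrank ℚ F : ℝ) * ∑ j, (M j : ℝ) * wh (f j) ≤
      4 * ((finrank ℚ F : ℝ) ^ 2 / ∏ i, (δ i : ℝ)) * ∑ j, δ j * wh (f j) := by
    have h3 : 4 * ((finrank ℚ F : ℝ) ^ 2 / ∏ i, (δ i : ℝ)) * ∑ j, δ j * wh (f j) =
        2 * (finrank ℚ F : ℝ) * ∑ j, (2 * (finrank ℚ F : ℝ) * δ j / ∏ i, (δ i : ℝ)) *
          wh (f j) := by
      rw [Finset.mul_sum, Finset.mul_sum]
      refine Finset.sum_congr rfl fun j _ => ?_
      ring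
    rw [h3]
    refine mul_le_mul_of_nonneg_left (Finset.sum_le_sum fun j _ => ?_) (by positivity)
    exact mul_le_mul_of_nonneg_right (hMB j) (hwh j)
  linarith

end

end Pool.Agent.Y642.ND.Shp
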