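import Mathlib
import Pool.Agent.Y642.ND.Adel
import Pool.Agent.Y642.ND.Shp
import Pool.Agent.Y657.ND.Rdet
import Pool.Agent.Y983.ND.Cell

/-!
# Conjugates over local fields and real conjugates together, monomials of a given shape
-/

set_option autoImplicit false

open Finset Polynomial Module NumberField ValuativeRel Pool.Agent.Y642.LZ

universe u v

namespace Pool.Agent.Y642.ND.AShp

/-- the determinant with real rows -/
lemma arc_real (hCELL : S_CELL) (hRDET : S_RDET) (hCNT : S_CNT) {D n : ℕ} (hn : 1 ≤ n)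
    {M : Fin n → ℕ} {B : ℕ} (hMB : ∀ j, M j ≤ B)
    (y : Fin D → Fin n → ℂ) (l : Fin D → Fin n → ℕ) (hl : ∀ k j, l k j ≤ M j)
    (T : Finset (Fin D)) (hT : ∀ i ∈ T, ∀ j, (((y i j).re : ℝ) : ℂ) = y i j) :
    ∃ N E : ℕ, 1 ≤ N ∧ (N : ℝ) ≤ 16 * Real.log (B + 2) ∧
      (n : ℝ) / (n + 1) * (T.card : ℝ) ^ (1 + 1 / (n : ℝ)) / N - 2 * T.card ≤ E ∧
      ‖(Matrix.of fun i k : Fin D => ∏ j, y i j ^ l k j).det‖ ≤
        (1 / 2) ^ E * (2 ^ n * 3 ^ n) ^ T.card * Real.sqrt ((D : ℝ) ^ D) *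
          ∏ i, ∏ j, (max 1 ‖y i j‖) ^ M j := by
  classical
  choose N lab p c hN hc using fun j => hCELL (M j)
  set N0 : ℕ := Finset.univ.sup N with hN0
  have hle : ∀ j, N j ≤ N0 := fun j => Finset.le_sup (f := N) (Finset.mem_univ j)
  have hN1 : 1 ≤ N0 := by
    have h1 := (lab ⟨0, hn⟩ 0).pos
    have h2 := hle ⟨0, hn⟩
    omega
  have hNB : (N0 : ℝ) ≤ 16 * Real.log (B + 2) := by
    obtain ⟨j, _, hj⟩ := Finset.exists_mem_eq_sup (Finset.univ : Finset (Fin n))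
      ⟨⟨0, hn⟩, Finset.mem_univ _⟩ N
    rw [hN0, hj]
    refine (hN j).trans ?_
    have h1 : (M j : ℝ) ≤ B := by exact_mod_cast hMB j
    have h2 : Real.log ((M j : ℝ) + 2) ≤ Real.log ((B : ℝ) + 2) :=
      Real.log_le_log (by positivity) (by linarith)
    linarith
  obtain ⟨E, hE1, hE2⟩ := real_E hCNT hn hN1 T
    (fun i j => Fin.castLE (hle j) (lab j (y i j).re))
  refine ⟨N0, E, hN1, hNB, hE1, ?_⟩
  have hnorm : ∀ i ∈ T, ∀ j, ‖y i j‖ = |(y i j).re| := by
    intro i hi j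
    rw [← hT i hi j, Complex.norm_real, Real.norm_eq_abs, Complex.ofReal_re]
  have h1 := hRDET D n B (Matrix.of fun i k : Fin D => ∏ j, y i j ^ l k j) T
    ((j : Fin n) → Fin (N j))
    (fun i j => lab j (y i j).re) (fun i => ∏ j, (max 1 ‖y i j‖) ^ M j)
    (fun i μ => ((∏ j, (if (μ j : ℕ) ≤ M j then p j (y i j).re (μ j) else 0) : ℝ) : ℂ))
    (fun κ μ k => ((∏ j, c j (κ j) (μ j) (l k j) : ℝ) : ℂ)) (3 ^ n) (by positivity)
    (fun i => Finset.prod_nonneg fun j _ => by positivity) ?_ ?_ ?_ E ?_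
  · exact h1
  · -- the expansion
    intro i hi k
    have h2 : (Matrix.of fun i k : Fin D => ∏ j, y i j ^ l k j) i k =
        ((∏ j, (y i j).re ^ l k j : ℝ) : ℂ) := by
      rw [Matrix.of_apply]
      push_cast
      refine Finset.prod_congr rfl fun j _ => ?_
      rw [hT i hi j]
    rw [h2]
    have h3 : ∏ j, (y i j).re ^ l k j = (∏ j, (max 1 ‖y i j‖) ^ M j) *
        ∑ μ : Fin n → Fin (B + 1),
          (∏ j, (if (μ j : ℕ) ≤ M j then p j (y i j).re (μ j) else 0)) *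
          ∏ j, c j (lab j (y i j).re) (μ j) (l k j) := by
      have h4 : ∀ j, (y i j).re ^ l k j = (max 1 ‖y i j‖) ^ M j *
          ∑ r : Fin (B + 1), (if (r : ℕ) ≤ M j then p j (y i j).re r else 0) *
            c j (lab j (y i j).re) r (l k j) := by
        intro j
        rw [hnorm i hi j, (hc j (y i j).re (l k j) (hl k j)).1]
        congr 1
        rw [Fin.sum_univ_eq_sum_range (fun r => (if r ≤ M j then p j (y i j).re r else 0) *
          c j (lab j (y i j).re) r (l k j)) (B + 1)]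
        have h5 : ∑ r ∈ range (M j + 1), p j (y i j).re r * c j (lab j (y i j).re) r (l k j) =
            ∑ r ∈ range (M j + 1), (if r ≤ M j then p j (y i j).re r else 0) *
              c j (lab j (y i j).re) r (l k j) := by
          refine Finset.sum_congr rfl fun r hr => ?_
          rw [if_pos (Nat.le_of_lt_succ (Finset.mem_range.mp hr))]
        rw [h5]
        refine Finset.sum_subset ?_ ?_
        · intro r hr
          rw [Finset.mem_range] at hr ⊢
          have := hMB j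
          omega
        · intro r _ hr
          rw [Finset.mem_range] at hr
          rw [if_neg (by omega), zero_mul]
      rw [Finset.prod_congr rfl fun j _ => h4 j, Finset.prod_mul_distrib]
      congr 1
      rw [Finset.prod_univ_sum, Fintype.piFinset_univ]
      refine Finset.sum_congr rfl fun μ _ => ?_
      rw [Finset.prod_mul_distrib]
    rw [h3]
    push_cast
    rfl
  · -- the size
    intro i hi μ k
    rw [← Complex.ofReal_mul, Complex.norm_real, Real.norm_eq_abs, ← Finset.prod_mul_distrib,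
      Finset.abs_prod]
    calc ∏ j, |(if (μ j : ℕ) ≤ M j then p j (y i j).re (μ j) else 0) *
          c j (lab j (y i j).re) (μ j) (l k j)| ≤
          ∏ j, (3 / 4 ^ (μ j : ℕ) : ℝ) := by
          refine Finset.prod_le_prod (fun j _ => abs_nonneg _) fun j _ => ?_
          split_ifs with hμ
          · exact (hc j (y i j).re (l k j) (hl k j)).2 _ hμ
          · rw [zero_mul, abs_zero]
            positivity
      _ = 3 ^ n / 4 ^ (∑ j, (μ j : ℕ)) := by
          rw [Finset.prod_div_distrib, Finset.prod_const, Finset.card_univ, Fintype.card_fin,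
            Finset.prod_pow_eq_pow_sum]
  · intro i _ k
    rw [Matrix.of_apply, norm_prod]
    refine Finset.prod_le_prod (fun j _ => norm_nonneg _) fun j _ => ?_
    rw [norm_pow]
    calc ‖y i j‖ ^ l k j ≤ (max 1 ‖y i j‖) ^ l k j :=
          pow_le_pow_left₀ (norm_nonneg _) (le_max_right _ _) _
      _ ≤ (max 1 ‖y i j‖) ^ M j := pow_le_pow_right₀ (le_max_left _ _) (hl k j)
  · intro g hg
    refine hE2 g fun i hi i' hi' hcell => hg i hi i' hi' ?_
    funext j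
    exact Fin.castLE_injective (hle j) (congrFun hcell j)

theorem adel_ineq (hEMB0 : S_EMB.{0}) (hEMB : S_EMB.{u}) (hDEG : S_DEG) (hBAS : S_BAS.{u})
    (hNEW : S_NEW.{u}) (hINT : S_INT.{u}) (hDET : S_DET.{u}) (hCNT : S_CNT) (hCELL : S_CELL)
    (hRDET : S_RDET)
    {F : Type} [Field F] [NumberField F] {n : ℕ} (hn : 1 ≤ n)
    {x : Fin n → F} {f : Fin n → ℤ[X]} (hf : ∀ j, Irreducible (f j))
    (hx : ∀ j, aeval (x j) (f j) = 0) {M : Fin n → ℕ}
    (hM : Submodule.span ℚ {z : F | ∃ k : Fin n → ℕ, (∀ j, k j ≤ M j) ∧ z = ∏ j, x j ^ k j} = ⊤)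
    {B : ℕ} (hMB : ∀ j, M j ≤ B)
    {ι : Type v} (s : Finset ι) (P : ι → Place.{u}) (hinj : Set.InjOn (fun i => (P i).p) s)
    (T : (i : ι) → Finset (F →+* (P i).K))
    (hT : ∀ i ∈ s, ∀ τ ∈ T i, ∀ j, τ (x j) ∈ 𝒪[(P i).K])
    {R0 : ℕ} (hR0 : R0 ≤ InfinitePlace.nrRealPlaces F) :
    ∃ N : ℕ, 1 ≤ N ∧ (N : ℝ) ≤ 16 * Real.log (B + 2) ∧
      ∑ i ∈ s, 2 * Real.log (P i).p / ((P i).e * (P i).q) * gain n (P i).q (T i).card +
      2 * Real.log 2 * ((n : ℝ) / (n + 1) * (R0 : ℝ) ^ (1 + 1 / (n : ℝ)) / N - 2 * R0) ≤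
      (finrank ℚ F : ℝ) * Real.log (finrank ℚ F) + 2 * n * Real.log 6 * R0 +
        2 * (finrank ℚ F : ℝ) * ∑ j, (M j : ℝ) * wh (f j) := by
  classical
  choose m hm using fun j => hDEG F (x j) (f j) (hf j) (hx j)
  obtain ⟨l, d, hl, hd0, hd⟩ := hBAS F n x M hM
  obtain ⟨r, hr⟩ := exists_r hEMB hINT hDET hf hx hm hl hd
  have hcard : Fintype.card (Fin (finrank ℚ F)) = Fintype.card (F →+* ℂ) := by
    rw [Fintype.card_fin, NumberField.Embeddings.card]
  let e : Fin (finrank ℚ F) ≃ (F →+* ℂ) := Fintype.equivOfCardEq hcard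
  set T0 : Finset (Fin (finrank ℚ F)) :=
    Finset.univ.filter fun i => ComplexEmbedding.IsReal (e i) with hT0
  have hT0card : T0.card = InfinitePlace.nrRealPlaces F := by
    rw [← InfinitePlace.card_real_embeddings F, Fintype.card_subtype, hT0]
    refine Finset.card_bij (fun i _ => e i) (fun i hi => ?_) (fun i _ i' _ h => e.injective h)
      fun φ hφ => ⟨e.symm φ, ?_, e.apply_symm_apply φ⟩
    · simpa using hi
    · simpa using hφ
  obtain ⟨TR, hTR, hTcard⟩ := Finset.exists_subset_card_eq (hT0card.symm ▸ hR0 : R0 ≤ T0.card)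
  have hreal : ∀ i ∈ TR, ∀ j, (((e i (x j)).re : ℝ) : ℂ) = e i (x j) := by
    intro i hi j
    have h1 : ComplexEmbedding.IsReal (e i) := (Finset.mem_filter.mp (hTR hi)).2
    rw [ComplexEmbedding.isReal_iff] at h1
    have h2 := RingHom.congr_fun h1 (x j)
    rw [ComplexEmbedding.conjugate_coe_eq] at h2
    exact Complex.conj_eq_iff_re.mp h2
  obtain ⟨N, E, hN1, hN, hE, hdet⟩ := arc_real hCELL hRDET hCNT hn hMB (fun i j => e i (x j)) l hl
    TR hreal
  refine ⟨N, hN1, hN, ?_⟩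
  rw [hTcard] at hE hdet
  have hdC := to_C hd e
  set Δ := (Matrix.of fun i k : Fin (finrank ℚ F) => ∏ j, e i (x j) ^ l k j).det with hΔ
  have hnd : |(d : ℝ)| = ‖Δ‖ ^ 2 := by
    rw [← norm_pow, ← hdC, show ((d : ℚ) : ℂ) = ((d : ℝ) : ℂ) by push_cast; rfl,
      Complex.norm_real, Real.norm_eq_abs]
  have hΔ0 : 0 < ‖Δ‖ := by
    rw [norm_pos_iff]
    intro h0
    rw [h0, zero_pow two_ne_zero] at hdC
    exact hd0 (by exact_mod_cast hdC)
  have hD0 : (0 : ℝ) < finrank ℚ F := by exact_mod_cast (finrank_pos : 0 < finrank ℚ F)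
  have hmx : ∀ i j, (0 : ℝ) < max 1 ‖e i (x j)‖ := fun i j =>
    lt_of_lt_of_le one_pos (le_max_left _ _)
  have hprod : (0 : ℝ) < ∏ i, ∏ j, (max 1 ‖e i (x j)‖) ^ M j :=
    Finset.prod_pos fun i _ => Finset.prod_pos fun j _ => pow_pos (hmx i j) _
  have hsq : (0 : ℝ) < Real.sqrt ((finrank ℚ F : ℝ) ^ finrank ℚ F) :=
    Real.sqrt_pos.mpr (pow_pos hD0 _)
  have h6 : (2 : ℝ) ^ n * 3 ^ n = 6 ^ n := by rw [← mul_pow]; norm_num
  rw [h6] at hdet
  have h1 := Real.log_le_log hΔ0 hdet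
  rw [Real.log_mul (by positivity) hprod.ne', Real.log_mul (by positivity) hsq.ne',
    Real.log_mul (by positivity) (by positivity), Real.log_pow, Real.log_pow, Real.log_pow,
    Real.log_sqrt (pow_pos hD0 _).le, Real.log_pow, one_div, Real.log_inv,
    Real.log_prod (fun i _ => (Finset.prod_pos fun j _ => pow_pos (hmx i j) _).ne')] at h1
  have h2 : ∑ i, Real.log (∏ j, (max 1 ‖e i (x j)‖) ^ M j) =
      ∑ j, (M j : ℝ) * ∑ σ : F →+* ℂ, Real.log (max 1 ‖σ (x j)‖) := by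
    have h3 : ∀ i, Real.log (∏ j, (max 1 ‖e i (x j)‖) ^ M j) =
        ∑ j, (M j : ℝ) * Real.log (max 1 ‖e i (x j)‖) := by
      intro i
      rw [Real.log_prod (fun j _ => (pow_pos (hmx i j) _).ne')]
      refine Finset.sum_congr rfl fun j _ => ?_
      rw [Real.log_pow]
    rw [Finset.sum_congr rfl fun i _ => h3 i, Finset.sum_comm]
    refine Finset.sum_congr rfl fun j _ => ?_
    rw [← Finset.mul_sum]
    congr 1
    exact Equiv.sum_comp e (fun σ : F →+* ℂ => Real.log (max 1 ‖σ (x j)‖))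
  rw [h2] at h1
  have hU : Real.log |(d : ℝ)| ≤
      (-(2 * Real.log 2 * E) + 2 * n * Real.log 6 * R0 +
        (finrank ℚ F : ℝ) * Real.log (finrank ℚ F)) +
      ∑ j : Fin n, 2 * (M j : ℝ) *
        ∑ σ : F →+* ℂ, Real.log (max 1 ‖σ (x j)‖) := by
    rw [hnd, Real.log_pow]
    have h7 : ∑ j : Fin n, 2 * (M j : ℝ) * ∑ σ : F →+* ℂ, Real.log (max 1 ‖σ (x j)‖) =
        2 * ∑ j : Fin n, (M j : ℝ) * ∑ σ : F →+* ℂ, Real.log (max 1 ‖σ (x j)‖) := by
      rw [Finset.mul_sum]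
      exact Finset.sum_congr rfl fun j _ => by ring
    show ((2 : ℕ) : ℝ) * Real.log ‖Δ‖ ≤ _ + ∑ j : Fin n, 2 * (M j : ℝ) *
      ∑ σ : F →+* ℂ, Real.log (max 1 ‖σ (x j)‖)
    rw [h7]
    push_cast at h1 ⊢
    linarith
  obtain ⟨hr0, h8⟩ := log_r_le' hEMB0 hf hx (M := M) hm hd0 hr hU
  have hlog2 : 0 < Real.log 2 := Real.log_pos (by norm_num)
  have h9 : 2 * Real.log 2 * ((n : ℝ) / (n + 1) * (R0 : ℝ) ^ (1 + 1 / (n : ℝ)) / N -
      2 * R0) ≤ 2 * Real.log 2 * E :=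
    mul_le_mul_of_nonneg_left hE (by positivity)
  have h10 : ∑ i ∈ s, 2 * Real.log (P i).p / ((P i).e * (P i).q) *
      gain n (P i).q (T i).card ≤ Real.log |(r : ℝ)| := by
    refine le_trans (Finset.sum_le_sum (g := fun i => (padicValInt (P i).p r : ℝ) *
      Real.log (P i).p) fun i hi => ?_)
      (log_ge s (fun i => (P i).p) (fun i _ => (P i).hp) hinj hr0)
    obtain ⟨E', hE1, hE2⟩ := locl (P i) hEMB hNEW hINT hDET hCNT hn hf hx hm hl hd hr (T i)
      (hT i hi)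
    have h1 : 2 * E' ≤ (P i).e * padicValInt (P i).p r :=
      val_le (P i).toLoc.notUnit (P i).hp (P i).he (P i).toLoc.assoc hr0 hE2
    have h2 : (2 : ℝ) * E' ≤ (P i).e * padicValInt (P i).p r := by exact_mod_cast h1
    have he0 : (0 : ℝ) < (P i).e := by exact_mod_cast (P i).he
    have hq2 : 2 ≤ (P i).q := by
      have := (P i).toLoc.two_le_q
      rwa [Place.toLoc_q] at this
    have hq0 : (0 : ℝ) < (P i).q := by exact_mod_cast (by omega : 0 < (P i).q)
    have hlog0 : 0 ≤ Real.log (P i).p := Real.log_natCast_nonneg _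
    have h3 : 2 * Real.log (P i).p / ((P i).e * (P i).q) * gain n (P i).q (T i).card ≤
        2 * Real.log (P i).p / ((P i).e * (P i).q) * ((P i).q * E') := by
      apply mul_le_mul_of_nonneg_left hE1
      positivity
    refine h3.trans ?_
    have h4 : 2 * Real.log (P i).p / ((P i).e * (P i).q) * ((P i).q * E') =
        (2 * E' / (P i).e) * Real.log (P i).p := by
      field_simp
    rw [h4]
    apply mul_le_mul_of_nonneg_right _ hlog0
    rw [div_le_iff₀ he0]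
    linarith
  linarith

/-- the main inequality for a shape without relations -/
theorem ashape {n : ℕ} (hn : 1 ≤ n) {F : Type} [Field F] [NumberField F]
    {x : Fin n → F}
    (hgen : Algebra.adjoin ℚ (Set.range x) = ⊤)
    {f : Fin n → ℤ[X]} (hf : ∀ j, Irreducible (f j)) (hx : ∀ j, aeval (x j) (f j) = 0)
    {δ : Fin n → ℕ} (hδ : ∀ j, 1 ≤ δ j)
    (hobs : ∀ G : MvPolynomial (Fin n) ℚ, G ≠ 0 → (∀ j, G.degreeOf j < δ j) →
      MvPolynomial.aeval x G ≠ 0)
    {ι : Type v} (s : Finset ι) (P : ι → Place.{u}) (hinj : Set.InjOn (fun i => (P i).p) s)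
    (T : (i : ι) → Finset (F →+* (P i).K))
    (hT : ∀ i ∈ s, ∀ τ ∈ T i, ∀ j, τ (x j) ∈ 𝒪[(P i).K])
    {R0 : ℕ} (hR0 : R0 ≤ InfinitePlace.nrRealPlaces F) :
    ∑ i ∈ s, 2 * Real.log (P i).p / ((P i).e * (P i).q) * gain n (P i).q (T i).card +
      1.38 * ((R0 : ℝ) ^ (1 + 1 / (n : ℝ)) / (32 * Real.log (2 * finrank ℚ F + 2))) ≤
      (finrank ℚ F : ℝ) * Real.log (finrank ℚ F) + 7 * n * R0 +
        4 * ((finrank ℚ F : ℝ) ^ 2 / ∏ i, (δ i : ℝ)) * ∑ j, δ j * wh (f j) := by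
  have hn1 : (1 : ℝ) ≤ n := by exact_mod_cast hn
  have hδ0 : (0 : ℝ) < ∏ i, (δ i : ℝ) :=
    Finset.prod_pos fun j _ => by exact_mod_cast hδ j
  have hδ0' : 0 < ∏ i, δ i := Finset.prod_pos fun j _ => hδ j
  have hDpos : 0 < finrank ℚ F := finrank_pos
  obtain ⟨M, hM1, hM2⟩ := Shp.span Pool.Agent.Y220.ND.t hgen hδ (Shp.linInd hobs)
  have hM2D : ∀ j, M j ≤ 2 * finrank ℚ F := by
    intro j
    have h1 : δ j ≤ ∏ i, δ i :=
      Nat.le_of_dvd hδ0' (Finset.dvd_prod_of_mem δ (Finset.mem_univ j))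
    have h2 : M j * ∏ i, δ i ≤ 2 * finrank ℚ F * ∏ i, δ i :=
      (hM1 j).trans (Nat.mul_le_mul_left _ h1)
    exact Nat.le_of_mul_le_mul_right h2 hδ0'
  have hMB : ∀ j, (M j : ℝ) ≤ 2 * (finrank ℚ F : ℝ) * δ j / ∏ i, (δ i : ℝ) := by
    intro j
    rw [le_div_iff₀ hδ0]
    exact_mod_cast hM1 j
  obtain ⟨N, hN1, hN, hmain⟩ := adel_ineq Pool.Agent.Y412.ND.t Pool.Agent.Y412.ND.t
    Pool.Agent.Y756.ND.deg Pool.Agent.Y756.ND.t Pool.Agent.Y730.ND.New.t
    Pool.Agent.Y730.ND.Int.t Pool.Agent.Y109.ND.t Pool.Agent.Y730.ND.Cnt.t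
    Pool.Agent.Y983.ND.t Pool.Agent.Y657.ND.t hn hf hx hM2 hM2D s P hinj T hT hR0
  have hwh : ∀ j, 0 ≤ wh (f j) := fun j => wh_nonneg (hf j).ne_zero
  have h3 : 2 * (finrank ℚ F : ℝ) * ∑ j, (M j : ℝ) * wh (f j) ≤
      4 * ((finrank ℚ F : ℝ) ^ 2 / ∏ i, (δ i : ℝ)) * ∑ j, δ j * wh (f j) := by
    have h3 : 4 * ((finrank ℚ F : ℝ) ^ 2 / ∏ i, (δ i : ℝ)) * ∑ j, δ j * wh (f j) =
        2 * (finrank ℚ F : ℝ) * ∑ j, (2 * (finrank ℚ F : ℝ) * δ j / ∏ i, (δ i : ℝ)) *
          wh (f j) := by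
      rw [Finset.mul_sum, Finset.mul_sum]
      refine Finset.sum_congr rfl fun j _ => ?_
      ring
    rw [h3]
    refine mul_le_mul_of_nonneg_left (Finset.sum_le_sum fun j _ => ?_) (by positivity)
    exact mul_le_mul_of_nonneg_right (hMB j) (hwh j)
  rw [Nat.cast_mul, Nat.cast_two] at hN
  refine le_trans ?_ (add_le_add_right h3 _)
  set S := ∑ j, (M j : ℝ) * wh (f j) with hS
  set G := ∑ i ∈ s, 2 * Real.log (P i).p / ((P i).e * (P i).q) * gain n (P i).q (T i).card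
    with hG
  set D : ℝ := (finrank ℚ F : ℝ) with hD
  set R : ℝ := (R0 : ℝ) with hR
  set a : ℝ := 1 + 1 / (n : ℝ) with ha
  have hD1 : 1 ≤ D := by
    rw [hD]
    exact_mod_cast hDpos
  have hRn : 0 ≤ R := Nat.cast_nonneg _
  have hlogpos : 0 < Real.log (2 * D + 2) := Real.log_pos (by linarith)
  have hN0 : (0 : ℝ) < N := by exact_mod_cast hN1
  have hl2 : (0.69 : ℝ) < Real.log 2 := by linarith [Real.log_two_gt_d9]
  have hl2' : Real.log 2 < 0.7 := by linarith [Real.log_two_lt_d9]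
  have hl6 : Real.log 6 < 2.1 := by
    have h1 : Real.log 6 ≤ Real.log (2 ^ 3) := Real.log_le_log (by norm_num) (by norm_num)
    rw [Real.log_pow] at h1
    push_cast at h1
    linarith
  have hX0 : 0 ≤ R ^ a := Real.rpow_nonneg hRn _
  have h1 : (n : ℝ) / (n + 1) * R ^ a / N ≥ R ^ a / (32 * Real.log (2 * D + 2)) := by
    have h2 : (1 / 2 : ℝ) ≤ (n : ℝ) / (n + 1) := by
      rw [div_le_div_iff₀ (by norm_num) (by linarith)]
      linarith
    have h3 : R ^ a / (16 * Real.log (2 * D + 2)) ≤ R ^ a / N :=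
      div_le_div_of_nonneg_left hX0 hN0 hN
    have h4 : (1 / 2 : ℝ) * (R ^ a / (16 * Real.log (2 * D + 2))) ≤
        (n : ℝ) / (n + 1) * (R ^ a / N) :=
      mul_le_mul h2 h3 (by positivity) (by positivity)
    have h5 : (1 / 2 : ℝ) * (R ^ a / (16 * Real.log (2 * D + 2))) =
        R ^ a / (32 * Real.log (2 * D + 2)) := by
      field_simp
      ring
    rw [mul_div_assoc, ge_iff_le, ← h5]
    exact h4
  set Y := R ^ a / (32 * Real.log (2 * D + 2)) with hY
  have hY0 : 0 ≤ Y := by positivity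
  have h2 : 2 * Real.log 2 * (Y - 2 * R) ≤
      2 * Real.log 2 * ((n : ℝ) / (n + 1) * R ^ a / N - 2 * R) :=
    mul_le_mul_of_nonneg_left (by linarith) (by positivity)
  have h4 : 4 * Real.log 2 * R + 2 * n * Real.log 6 * R ≤ 7 * n * R := by
    have h5 : 4 * Real.log 2 * R ≤ 2.8 * n * R := by
      have : 4 * Real.log 2 ≤ 2.8 * n := by linarith
      exact mul_le_mul_of_nonneg_right this hRn
    have h6 : 2 * n * Real.log 6 * R ≤ 4.2 * n * R := by
      have : 2 * n * Real.log 6 ≤ 4.2 * n := by nlinarith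
      exact mul_le_mul_of_nonneg_right this hRn
    linarith
  have h5 : 1.38 * Y ≤ 2 * Real.log 2 * Y := mul_le_mul_of_nonneg_right (by linarith) hY0
  nlinarith

end Pool.Agent.Y642.ND.AShp
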