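import Mathlib

/-!
# From weighted sums over shapes to the product
-/

set_option autoImplicit false

open Finset

namespace Pool.Agent.Y642.ND.Prd

lemma shrink {n : ℕ} {c : ℝ} (hc : 1 ≤ c) : ∀ (N : ℕ) (δ : Fin n → ℕ), ∑ j, δ j = N →
    (∀ j, 1 ≤ δ j) → c < 2 * ∏ j, (δ j : ℝ) →
    ∃ δ' : Fin n → ℕ, (∀ j, 1 ≤ δ' j) ∧ (∀ j, δ' j ≤ δ j) ∧ ∏ j, (δ' j : ℝ) ≤ c ∧
      c < 2 * ∏ j, (δ' j : ℝ) := by
  classical
  intro N
  induction N using Nat.strong_induction_on with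
  | _ N ih =>
    intro δ hN hδ hlt
    by_cases hle : ∏ j, (δ j : ℝ) ≤ c
    · exact ⟨δ, hδ, fun j => le_rfl, hle, hlt⟩
    push Not at hle
    obtain ⟨j, hj⟩ : ∃ j, 2 ≤ δ j := by
      by_contra hcon
      push Not at hcon
      have h1 : ∏ j, (δ j : ℝ) = 1 := by
        refine Finset.prod_eq_one fun j _ => ?_
        have h2 := hcon j
        have h3 := hδ j
        have h4 : δ j = 1 := by omega
        rw [h4, Nat.cast_one]
      rw [h1] at hle
      linarith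
    have hprod : (∏ i, (Function.update δ j (δ j - 1) i : ℝ)) * δ j =
        (∏ i, (δ i : ℝ)) * ((δ j - 1 : ℕ) : ℝ) := by
      rw [← Finset.mul_prod_erase Finset.univ (fun i => (Function.update δ j (δ j - 1) i : ℝ))
        (Finset.mem_univ j), ← Finset.mul_prod_erase Finset.univ (fun i => (δ i : ℝ))
        (Finset.mem_univ j)]
      have h1 : ∏ i ∈ Finset.univ.erase j, (Function.update δ j (δ j - 1) i : ℝ) =
          ∏ i ∈ Finset.univ.erase j, (δ i : ℝ) := by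
        refine Finset.prod_congr rfl fun i hi => ?_
        rw [Function.update_of_ne (Finset.ne_of_mem_erase hi)]
      rw [h1, Function.update_self]
      ring
    have hsum : ∑ i, Function.update δ j (δ j - 1) i < N := by
      rw [← hN]
      refine Finset.sum_lt_sum (fun i _ => ?_) ⟨j, Finset.mem_univ j, ?_⟩
      · by_cases hij : i = j
        · subst hij
          rw [Function.update_self]
          omega
        · rw [Function.update_of_ne hij]
      · rw [Function.update_self]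
        omega
    have hP0 : 0 < ∏ i, (δ i : ℝ) := Finset.prod_pos fun i _ => by exact_mod_cast hδ i
    have hdj : (2 : ℝ) ≤ δ j := by exact_mod_cast hj
    have hc1 : ((δ j - 1 : ℕ) : ℝ) = (δ j : ℝ) - 1 := by
      rw [Nat.cast_sub (hδ j), Nat.cast_one]
    have hnew : ∏ i, (δ i : ℝ) ≤ 2 * ∏ i, (Function.update δ j (δ j - 1) i : ℝ) := by
      have h1 : (∏ i, (δ i : ℝ)) * δ j ≤
          (2 * ∏ i, (Function.update δ j (δ j - 1) i : ℝ)) * δ j := by
        have h2 : (2 * ∏ i, (Function.update δ j (δ j - 1) i : ℝ)) * δ j =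
            2 * ((∏ i, (δ i : ℝ)) * ((δ j - 1 : ℕ) : ℝ)) := by
          rw [← hprod]
          ring
        rw [h2, hc1]
        nlinarith
      exact le_of_mul_le_mul_right h1 (by linarith)
    obtain ⟨δ', h1, h2, h3, h4⟩ := ih _ hsum (Function.update δ j (δ j - 1)) rfl (fun i => by
      by_cases hij : i = j
      · subst hij
        rw [Function.update_self]
        omega
      · rw [Function.update_of_ne hij]
        exact hδ i) (by linarith)
    refine ⟨δ', h1, fun i => (h2 i).trans ?_, h3, h4⟩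
    by_cases hij : i = j
    · subst hij
      rw [Function.update_self]
      omega
    · rw [Function.update_of_ne hij]

lemma prod_pos_form {n : ℕ} (hn : 1 ≤ n) {h g : Fin n → ℝ} {D κ E t : ℝ} (hD : 0 < D)
    (hκ : 1 ≤ κ * D) (hE : 0 < E) (ht : 0 < t) (htE : 9 * n * D * t ≤ κ * E)
    (hg0 : ∀ j, 0 < g j) (hhg : ∀ j, h j ≤ g j) (hgt : ∀ j, g j ≤ t)
    (hmain : ∀ δ : Fin n → ℕ, (∀ j, 1 ≤ δ j) → (∀ j, δ j * h j ≤ t) →
      ∏ j, (δ j : ℝ) ≤ κ * D → E ≤ 4 * (D ^ 2 / ∏ j, (δ j : ℝ)) * ∑ j, δ j * h j) :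
    E * t ^ (n - 1) / (2 ^ (n + 2) * n * D ^ 2) ≤ ∏ j, g j := by
  have hn0 : (0 : ℝ) < n := by exact_mod_cast hn
  have hκ0 : 0 < κ := by
    by_contra hcon
    push Not at hcon
    nlinarith
  set δ : Fin n → ℕ := fun j => ⌊t / g j⌋₊ with hδdef
  have hdiv : ∀ j, 1 ≤ t / g j := fun j => by
    rw [one_le_div (hg0 j)]
    exact hgt j
  have hδ1 : ∀ j, 1 ≤ δ j := fun j => by
    rw [hδdef]
    exact Nat.one_le_floor_iff _ |>.mpr (hdiv j)
  have hδle : ∀ j, (δ j : ℝ) * g j ≤ t := fun j => by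
    have h1 : (δ j : ℝ) ≤ t / g j := Nat.floor_le (by linarith [hdiv j])
    rwa [le_div_iff₀ (hg0 j)] at h1
  have hδge : ∀ j, t / (2 * g j) ≤ δ j := fun j => by
    have h1 : t / g j < (δ j : ℝ) + 1 := Nat.lt_floor_add_one _
    have h2 : (1 : ℝ) ≤ δ j := by exact_mod_cast hδ1 j
    have h3 : t / (2 * g j) = t / g j / 2 := by
      rw [mul_comm, div_mul_eq_div_div]
    rw [h3]
    linarith
  have key : ∀ δ' : Fin n → ℕ, (∀ j, 1 ≤ δ' j) → (∀ j, δ' j ≤ δ j) →
      ∏ j, (δ' j : ℝ) ≤ κ * D → E * ∏ j, (δ' j : ℝ) ≤ 4 * D ^ 2 * (n * t) := by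
    intro δ' h1 h2 h3
    have h4 : ∀ j, (δ' j : ℝ) * h j ≤ t := fun j => by
      have h5 : (δ' j : ℝ) * h j ≤ δ' j * g j :=
        mul_le_mul_of_nonneg_left (hhg j) (Nat.cast_nonneg _)
      have h6 : (δ' j : ℝ) * g j ≤ δ j * g j :=
        mul_le_mul_of_nonneg_right (by exact_mod_cast h2 j) (hg0 j).le
      linarith [hδle j]
    have h5 := hmain δ' h1 h4 h3
    have hP0 : 0 < ∏ i, (δ' i : ℝ) := Finset.prod_pos fun i _ => by exact_mod_cast h1 i
    have h6 : ∑ j, (δ' j : ℝ) * h j ≤ n * t := by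
      have := Finset.sum_le_sum fun j (_ : j ∈ (Finset.univ : Finset (Fin n))) => h4 j
      simpa using this
    have h7 : 4 * (D ^ 2 / ∏ j, (δ' j : ℝ)) * ∑ j, δ' j * h j ≤
        4 * (D ^ 2 / ∏ j, (δ' j : ℝ)) * (n * t) :=
      mul_le_mul_of_nonneg_left h6 (by positivity)
    have h8 : 4 * (D ^ 2 / ∏ j, (δ' j : ℝ)) * (n * t) * ∏ j, (δ' j : ℝ) =
        4 * D ^ 2 * (n * t) := by
      field_simp
    rw [← h8]
    exact mul_le_mul_of_nonneg_right (h5.trans h7) hP0.le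
  rcases le_or_gt (∏ j, (δ j : ℝ)) (κ * D) with hcase | hcase
  · have h1 := key δ hδ1 (fun j => le_rfl) hcase
    have h2 : ∏ j, (t / (2 * g j)) ≤ ∏ j, (δ j : ℝ) :=
      Finset.prod_le_prod (fun j _ => by have := hg0 j; positivity) fun j _ => hδge j
    have hG0 : 0 < ∏ j, g j := Finset.prod_pos fun j _ => hg0 j
    have h3 : ∏ j, (t / (2 * g j)) = t ^ n / (2 ^ n * ∏ j, g j) := by
      rw [Finset.prod_div_distrib, Finset.prod_mul_distrib]
      simp
    rw [h3] at h2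
    have h4 : E * (t ^ n / (2 ^ n * ∏ j, g j)) ≤ 4 * D ^ 2 * (n * t) :=
      (mul_le_mul_of_nonneg_left h2 hE.le).trans h1
    have h5 : t ^ n = t * t ^ (n - 1) := by
      rw [← pow_succ']
      congr 1
      omega
    rw [h5, ← mul_div_assoc, div_le_iff₀ (by positivity)] at h4
    rw [div_le_iff₀ (by positivity)]
    have h6 : t * (E * t ^ (n - 1)) ≤ t * ((∏ j, g j) * (2 ^ (n + 2) * n * D ^ 2)) := by
      have h7 : t * ((∏ j, g j) * (2 ^ (n + 2) * n * D ^ 2)) =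
          4 * D ^ 2 * (n * t) * (2 ^ n * ∏ j, g j) := by ring
      rw [h7]
      calc t * (E * t ^ (n - 1)) = E * (t * t ^ (n - 1)) := by ring
        _ ≤ _ := h4
    exact le_of_mul_le_mul_left h6 ht
  · exfalso
    obtain ⟨δ', h1, h2, h3, h4⟩ := shrink hκ _ δ rfl hδ1 (by linarith)
    have h5 := key δ' h1 h2 h3
    have h6 : E * (κ * D) < E * (2 * ∏ j, (δ' j : ℝ)) := mul_lt_mul_of_pos_left h4 hE
    have h7 : D * (9 * n * D * t) ≤ D * (κ * E) := mul_le_mul_of_nonneg_left htE hD.le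
    have h8 : 0 < (n : ℝ) * D ^ 2 * t := by positivity
    nlinarith

theorem prod_form {n : ℕ} (hn : 1 ≤ n) {h : Fin n → ℝ} {D κ E t : ℝ} (hD : 0 < D)
    (hκ : 1 ≤ κ * D) (hE : 0 < E) (ht : 0 < t) (htE : 9 * n * D * t ≤ κ * E)
    (hh0 : ∀ j, 0 ≤ h j) (hht : ∀ j, h j ≤ t)
    (hmain : ∀ δ : Fin n → ℕ, (∀ j, 1 ≤ δ j) → (∀ j, δ j * h j ≤ t) →
      ∏ j, (δ j : ℝ) ≤ κ * D → E ≤ 4 * (D ^ 2 / ∏ j, (δ j : ℝ)) * ∑ j, δ j * h j) :
    E * t ^ (n - 1) / (2 ^ (n + 2) * n * D ^ 2) ≤ ∏ j, h j := by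
  have h1 : Filter.Tendsto (fun ε : ℝ => ∏ j, max (h j) ε) (nhdsWithin 0 (Set.Ioi 0))
      (nhds (∏ j, h j)) := by
    have h2 : Continuous fun ε : ℝ => ∏ j, max (h j) ε :=
      continuous_finsetProd _ fun j _ => continuous_const.max continuous_id
    have h3 : ∏ j, max (h j) (0 : ℝ) = ∏ j, h j :=
      Finset.prod_congr rfl fun j _ => max_eq_left (hh0 j)
    have h4 := h2.tendsto 0
    simp only [h3] at h4
    exact h4.mono_left nhdsWithin_le_nhds
  refine ge_of_tendsto h1 ?_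
  filter_upwards [Ioo_mem_nhdsGT ht] with ε hε
  exact prod_pos_form hn hD hκ hE ht htE (fun j => lt_of_lt_of_le hε.1 (le_max_right _ _))
    (fun j => le_max_left _ _) (fun j => max_le (hht j) hε.2.le) hmain

end Pool.Agent.Y642.ND.Prd
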